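import Mathlib

/-! Embeddings of a graph into the complement of a graph: greedy extension and the scale lemma. -/

namespace Pool.Agent.helper60.Rsl

open Finset
open scoped Classical

variable {V W : Type*}

/-- `F[S]` embeds into the complement of `R` inside `U`. -/
def BlueEmb (R : SimpleGraph V) (F : SimpleGraph W) (S : Finset W) (U : Finset V) : Prop :=
  ∃ f : W → V, (∀ w ∈ S, f w ∈ U) ∧ Set.InjOn f (S : Set W) ∧
    ∀ w ∈ S, ∀ w' ∈ S, F.Adj w w' → ¬ R.Adj (f w) (f w')

/-- Red neighbours of `x` in `U`. -/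
noncomputable def nb (R : SimpleGraph V) (U : Finset V) (x : V) : Finset V :=
  U.filter (fun y => R.Adj x y)

/-- Twice the number of red edges in `U`. -/
noncomputable def e2 (R : SimpleGraph V) (U : Finset V) : ℕ := ∑ x ∈ U, (nb R U x).card

variable {R : SimpleGraph V} {F : SimpleGraph W}

theorem mem_nb {U : Finset V} {x y : V} : y ∈ nb R U x ↔ y ∈ U ∧ R.Adj x y := by
  simp [nb]

theorem nb_subset (R : SimpleGraph V) (U : Finset V) (x : V) : nb R U x ⊆ U := filter_subset _ _

theorem nb_mono {U U' : Finset V} (h : U ⊆ U') (x : V) : nb R U x ⊆ nb R U' x :=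
  filter_subset_filter _ h

theorem BlueEmb.mono {S S' : Finset W} {U U' : Finset V} (h : BlueEmb R F S U) (hS : S' ⊆ S)
    (hU : U ⊆ U') : BlueEmb R F S' U' := by
  obtain ⟨f, h1, h2, h3⟩ := h
  exact ⟨f, fun w hw => hU (h1 w (hS hw)), h2.mono (by exact_mod_cast hS),
    fun w hw w' hw' => h3 w (hS hw) w' (hS hw')⟩

theorem blueEmb_empty {U : Finset V} (hU : U.Nonempty) : BlueEmb R F ∅ U := by
  obtain ⟨u, hu⟩ := hU
  exact ⟨fun _ => u, by simp, by simp, by simp⟩

/-- Adding one vertex to an embedding. -/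
theorem add_vertex {S1 : Finset W} {U : Finset V} {f : W → V} {w : W} {x : V}
    (h1 : ∀ w ∈ S1, f w ∈ U) (h2 : Set.InjOn f (S1 : Set W))
    (h3 : ∀ w ∈ S1, ∀ w' ∈ S1, F.Adj w w' → ¬ R.Adj (f w) (f w')) (hw : w ∉ S1) (hx : x ∈ U)
    (hx1 : ∀ w' ∈ S1, f w' ≠ x) (hx2 : ∀ w' ∈ S1, F.Adj w w' → ¬ R.Adj (f w') x) :
    (∀ w' ∈ insert w S1, Function.update f w x w' ∈ U) ∧
    Set.InjOn (Function.update f w x) ((insert w S1 : Finset W) : Set W) ∧
    ∀ u ∈ insert w S1, ∀ w' ∈ insert w S1, F.Adj u w' →
      ¬ R.Adj (Function.update f w x u) (Function.update f w x w') := by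
  have hup : ∀ u ∈ S1, Function.update f w x u = f u := by
    intro u hu
    exact Function.update_of_ne (by rintro rfl; exact hw hu) _ _
  have hself : Function.update f w x w = x := Function.update_self _ _ _
  refine ⟨?_, ?_, ?_⟩
  · intro u hu
    rcases mem_insert.1 hu with rfl | hu
    · rw [hself]; exact hx
    · rw [hup u hu]; exact h1 u hu
  · intro u hu v hv huv
    rw [mem_coe] at hu hv
    rcases mem_insert.1 hu with hu' | hu' <;> rcases mem_insert.1 hv with hv' | hv'
    · rw [hu', hv']
    · rw [hu', hself, hup v hv'] at huv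
      exact absurd huv.symm (hx1 v hv')
    · rw [hv', hself, hup u hu'] at huv
      exact absurd huv (hx1 u hu')
    · rw [hup u hu', hup v hv'] at huv
      exact h2 (mem_coe.2 hu') (mem_coe.2 hv') huv
  · intro u hu v hv huv
    rcases mem_insert.1 hu with hu' | hu' <;> rcases mem_insert.1 hv with hv' | hv'
    · rw [hu', hv'] at huv
      exact absurd rfl huv.ne
    · rw [hu', hself, hup v hv']
      rw [hu'] at huv
      exact fun h => hx2 v hv' huv h.symm
    · rw [hv', hself, hup u hu']
      rw [hv'] at huv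
      exact hx2 u hu' huv.symm
    · rw [hup u hu', hup v hv']
      exact h3 u hu' v hv' huv

/-- Greedy extension. -/
theorem BlueEmb.extend {S' S : Finset W} {U : Finset V} {b : ℕ} {D : ℝ} (h0 : S' ⊆ S)
    (hE : BlueEmb R F S' U) (hD0 : 0 ≤ D)
    (hb : ∀ T, S' ⊂ T → T ⊆ S → ∃ w ∈ T, w ∉ S' ∧ (T.filter (fun w' => F.Adj w w')).card ≤ b)
    (hD : ∀ x ∈ U, ((nb R U x).card : ℝ) ≤ D) (hU : (S.card : ℝ) + b * D < U.card) :
    BlueEmb R F S U := by
  have key : ∀ n : ℕ, ∀ T : Finset W, T.card = n → S' ⊆ T → T ⊆ S → BlueEmb R F T U := by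
    intro n
    induction n with
    | zero =>
      intro T hT hST _
      rw [card_eq_zero] at hT
      rw [hT] at hST ⊢
      exact hE.mono (empty_subset _) Subset.rfl
    | succ n ih =>
      intro T hT hST hTS
      rcases hST.eq_or_ssubset with heq | hss
      · rw [← heq]; exact hE
      obtain ⟨w, hwT, hwS', hwb⟩ := hb T hss hTS
      set S1 := T.erase w with hS1
      have hS'S1 : S' ⊆ S1 := fun v hv => mem_erase.2 ⟨by rintro rfl; exact hwS' hv, hST hv⟩
      have hS1T : S1 ⊆ T := erase_subset _ _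
      have hS1S : S1 ⊆ S := hS1T.trans hTS
      have hwS1 : w ∉ S1 := notMem_erase _ _
      obtain ⟨f, h1, h2, h3⟩ := ih S1 (by rw [hS1, card_erase_of_mem hwT, hT]; rfl) hS'S1 hS1S
      -- blocked vertices
      set Bl : Finset V := S1.image f ∪
        (S1.filter (fun w' => F.Adj w w')).biUnion (fun w' => nb R U (f w')) with hBl
      have hcard : Bl.card < U.card := by
        have h4 : Bl.card ≤ S1.card + ∑ w' ∈ S1.filter (fun w' => F.Adj w w'),
            (nb R U (f w')).card :=
          (card_union_le _ _).trans (add_le_add card_image_le card_biUnion_le)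
        have h5 : (∑ w' ∈ S1.filter (fun w' => F.Adj w w'), ((nb R U (f w')).card : ℝ)) ≤ b * D := by
          calc (∑ w' ∈ S1.filter (fun w' => F.Adj w w'), ((nb R U (f w')).card : ℝ))
              ≤ ∑ w' ∈ S1.filter (fun w' => F.Adj w w'), D :=
                sum_le_sum fun w' hw' => hD _ (h1 w' (mem_filter.1 hw').1)
            _ = (S1.filter (fun w' => F.Adj w w')).card * D := by rw [sum_const, nsmul_eq_mul]
            _ ≤ b * D := by
                apply mul_le_mul_of_nonneg_right _ hD0
                have := (card_le_card (filter_subset_filter (fun w' => F.Adj w w') hS1T)).trans hwb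
                exact_mod_cast this
        have h6 : (Bl.card : ℝ) ≤ S1.card + ∑ w' ∈ S1.filter (fun w' => F.Adj w w'),
            ((nb R U (f w')).card : ℝ) := by exact_mod_cast h4
        have h7 : (S1.card : ℝ) ≤ S.card := by exact_mod_cast card_le_card hS1S
        have : (Bl.card : ℝ) < U.card := by linarith
        exact_mod_cast this
      obtain ⟨x, hxU, hxB⟩ := exists_mem_notMem_of_card_lt_card hcard
      rw [← insert_erase hwT, ← hS1]
      rw [hBl, mem_union, not_or, mem_image, mem_biUnion] at hxB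
      refine ⟨Function.update f w x, add_vertex h1 h2 h3 hwS1 hxU ?_ ?_⟩
      · intro w' hw' h
        exact hxB.1 ⟨w', hw', h⟩
      · intro w' hw' ha h
        exact hxB.2 ⟨w', mem_filter.2 ⟨hw', ha⟩, mem_nb.2 ⟨hxU, h⟩⟩
  exact key S.card S rfl h0 Subset.rfl

/-- Extension by an `F`-independent set placed in a set `Z` without red edges to the image. -/
theorem extend_into {S' T : Finset W} {U Z : Finset V} {f : W → V} (h1 : ∀ w ∈ S', f w ∈ U)
    (h2 : Set.InjOn f (S' : Set W))
    (h3 : ∀ w ∈ S', ∀ w' ∈ S', F.Adj w w' → ¬ R.Adj (f w) (f w')) (hZU : Z ⊆ U)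
    (hZ : T.card ≤ Z.card) (hZf : ∀ w ∈ S', f w ∉ Z) (hZR : ∀ w ∈ S', ∀ z ∈ Z, ¬ R.Adj (f w) z)
    (hdis : Disjoint S' T) (hT : ∀ w ∈ T, ∀ w' ∈ T, ¬ F.Adj w w') :
    BlueEmb R F (S' ∪ T) U := by
  have key : ∀ T' : Finset W, T' ⊆ T → ∃ g : W → V, (∀ w ∈ S' ∪ T', g w ∈ U) ∧
      Set.InjOn g ((S' ∪ T' : Finset W) : Set W) ∧
      (∀ w ∈ S' ∪ T', ∀ w' ∈ S' ∪ T', F.Adj w w' → ¬ R.Adj (g w) (g w')) ∧
      (∀ w ∈ S', g w = f w) ∧ ∀ w ∈ T', g w ∈ Z := by
    intro T'
    induction T' using Finset.induction_on with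
    | empty => intro _; exact ⟨f, by simpa using h1, by simpa using h2, by simpa using h3,
        fun _ _ => rfl, by simp⟩
    | @insert w T' hwT ih =>
      intro hT'
      obtain ⟨g, g1, g2, g3, g4, g5⟩ := ih ((subset_insert _ _).trans hT')
      have hwT0 : w ∈ T := hT' (mem_insert_self _ _)
      have hwS : w ∉ S' := fun h => (disjoint_left.1 hdis h) hwT0
      have hw1 : w ∉ S' ∪ T' := by
        rw [mem_union, not_or]; exact ⟨hwS, hwT⟩
      have hcard : (T'.image g).card < Z.card := by
        have h4 : (insert w T').card ≤ T.card := card_le_card hT'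
        rw [card_insert_of_notMem hwT] at h4
        have h5 : (T'.image g).card ≤ T'.card := card_image_le
        omega
      obtain ⟨x, hxZ, hx⟩ := exists_mem_notMem_of_card_lt_card hcard
      have hunion : S' ∪ insert w T' = insert w (S' ∪ T') := by rw [union_insert]
      have hx1 : ∀ w' ∈ S' ∪ T', g w' ≠ x := by
        intro w' hw' h
        rcases mem_union.1 hw' with h6 | h6
        · rw [g4 w' h6] at h
          exact hZf w' h6 (h ▸ hxZ)
        · exact hx (mem_image.2 ⟨w', h6, h⟩)
      have hx2 : ∀ w' ∈ S' ∪ T', F.Adj w w' → ¬ R.Adj (g w') x := by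
        intro w' hw' ha
        rcases mem_union.1 hw' with h6 | h6
        · rw [g4 w' h6]
          exact hZR w' h6 x hxZ
        · exact absurd ha (hT w hwT0 w' (hT' (mem_insert_of_mem h6)))
      obtain ⟨k1, k2, k3⟩ := add_vertex g1 g2 g3 hw1 (hZU hxZ) hx1 hx2
      refine ⟨Function.update g w x, ?_, ?_, ?_, ?_, ?_⟩
      · rw [hunion]; exact k1
      · rw [hunion]; exact k2
      · rw [hunion]; exact k3
      · intro u hu
        rw [Function.update_of_ne (by rintro rfl; exact hwS hu)]
        exact g4 u hu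
      · intro u hu
        rcases mem_insert.1 hu with hu' | hu'
        · rw [hu', Function.update_self]; exact hxZ
        · rw [Function.update_of_ne (by rintro rfl; exact hwT hu')]
          exact g5 u hu'
  obtain ⟨g, g1, g2, g3, -, -⟩ := key T Subset.rfl
  exact ⟨g, g1, g2, g3⟩

/-- Vertices of large red degree are few. -/
theorem trim (R : SimpleGraph V) (U : Finset V) (D : ℝ) :
    ((U.filter (fun x => D < ((nb R U x).card : ℝ))).card : ℝ) * D ≤ e2 R U := by
  have h : ((U.filter (fun x => D < ((nb R U x).card : ℝ))).card : ℝ) * D ≤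
      ∑ x ∈ U.filter (fun x => D < ((nb R U x).card : ℝ)), ((nb R U x).card : ℝ) := by
    rw [← nsmul_eq_mul, ← sum_const]
    exact sum_le_sum fun x hx => (mem_filter.1 hx).2.le
  refine h.trans ?_
  rw [e2]
  push_cast
  exact sum_le_sum_of_subset_of_nonneg (filter_subset _ _) fun x _ _ => Nat.cast_nonneg _

/-- A chain of vertex sets of `F`: `S 0 ⊇ S 1 ⊇ ⋯ ⊇ S J = ∅`, where every set `T` with
`S (j+1) ⊂ T ⊆ S j` contains a vertex outside `S (j+1)` with at most `b j` neighbours in `T`. -/
structure Chain (F : SimpleGraph W) (J : ℕ) (S : ℕ → Finset W) (b : ℕ → ℕ) : Prop where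
  anti : ∀ j, S (j + 1) ⊆ S j
  last : S J = ∅
  bound : ∀ j < J, ∀ T, S (j + 1) ⊂ T → T ⊆ S j →
    ∃ w ∈ T, w ∉ S (j + 1) ∧ (T.filter (fun w' => F.Adj w w')).card ≤ b j
  one_le : ∀ j < J, 1 ≤ b j

/-- The scale lemma. -/
theorem scale {J : ℕ} {S : ℕ → Finset W} {b : ℕ → ℕ} (hc : Chain F J S b) {B : ℕ → ℝ}
    (hB0 : ∀ j, 0 ≤ B j) {N : ℝ} (hN : 0 < N) {U0 : Finset V}
    (hloc : ∀ j < J, ∀ U' ⊆ U0, U'.Nonempty → B j * U'.card ≤ e2 R U' → BlueEmb R F (S j) U')
    (hS : ((S 0).card : ℝ) ≤ N / 8) (hsum : ∑ j ∈ range J, (b j : ℝ) * B j ≤ N / 16)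
    (hU0 : N ≤ U0.card) : BlueEmb R F (S 0) U0 := by
  set ε : ℕ → ℝ := fun j => 8 * b j * B j / N with hε
  have hε0 : ∀ j, 0 ≤ ε j := fun j => by
    have := hB0 j
    rw [hε]; positivity
  set E : ℕ → ℝ := fun j => ∑ i ∈ Ico j J, ε i with hE
  have hE0 : E 0 ≤ 1 / 2 := by
    rw [hE]
    simp only
    rw [← Finset.range_eq_Ico, hε]
    simp only
    rw [← sum_div, div_le_iff₀ hN]
    have : ∑ i ∈ range J, 8 * (b i : ℝ) * B i = 8 * ∑ i ∈ range J, (b i : ℝ) * B i := by
      rw [mul_sum]
      exact sum_congr rfl fun i _ => by ring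
    rw [this]
    linarith
  have hEle : ∀ j, E j ≤ 1 / 2 := by
    intro j
    refine le_trans ?_ hE0
    apply sum_le_sum_of_subset_of_nonneg
    · intro i hi
      rw [mem_Ico] at hi ⊢
      omega
    · intro i _ _; exact hε0 i
  have hcardS : ∀ j, ((S j).card : ℝ) ≤ N / 8 := by
    intro j
    refine le_trans ?_ hS
    have : S j ⊆ S 0 := by
      induction j with
      | zero => exact Subset.rfl
      | succ j ih => exact (hc.anti j).trans ih
    exact_mod_cast card_le_card this
  have key : ∀ d j, j + d = J → ∀ U' ⊆ U0, N / 2 * (1 + 2 * E j) ≤ U'.card →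
      BlueEmb R F (S j) U' := by
    intro d
    induction d with
    | zero =>
      intro j hj U' _ hU'
      have hjJ : j = J := by omega
      rw [hjJ, hc.last]
      apply blueEmb_empty
      rw [← card_pos]
      have hEj : 0 ≤ E j := sum_nonneg fun i _ => hε0 i
      have : (0 : ℝ) < U'.card := lt_of_lt_of_le (by positivity) hU'
      exact_mod_cast this
    | succ d ih =>
      intro j hj U' hU'0 hU'
      have hjJ : j < J := by omega
      have hEj : E j = ε j + E (j + 1) := by
        rw [hE]
        simp only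
        rw [sum_eq_sum_Ico_succ_bot hjJ]
      have hEj1 : 0 ≤ E (j + 1) := sum_nonneg fun i _ => hε0 i
      have hEj0 : 0 ≤ E j := by rw [hEj]; linarith [hε0 j]
      have hpos : (0 : ℝ) < U'.card := lt_of_lt_of_le (by positivity) hU'
      have hne : U'.Nonempty := by
        rw [← card_pos]; exact_mod_cast hpos
      by_cases hcase : B j * U'.card ≤ e2 R U'
      · exact hloc j hjJ U' hU'0 hne hcase
      · push Not at hcase
        have hbj : (1 : ℝ) ≤ b j := by exact_mod_cast hc.one_le j hjJ
        set D : ℝ := N / (8 * b j) with hD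
        have hDpos : 0 < D := by positivity
        set X := U'.filter (fun x => D < ((nb R U' x).card : ℝ)) with hX
        set U2 := U' \ X with hU2
        have hXcard : (X.card : ℝ) ≤ ε j * U'.card := by
          have h1 := trim R U' D
          have h2 : (X.card : ℝ) * D ≤ B j * U'.card := h1.trans hcase.le
          have h3 : (X.card : ℝ) ≤ B j * U'.card / D := by
            rw [le_div_iff₀ hDpos]; exact h2
          refine h3.trans (le_of_eq ?_)
          rw [hε, hD]
          field_simp
        have hU2card : (U2.card : ℝ) = U'.card - X.card := by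
          rw [hU2, card_sdiff_of_subset (filter_subset _ _), Nat.cast_sub
            (card_le_card (filter_subset _ _))]
        have hbig : N / 2 * (1 + 2 * E (j + 1)) ≤ U2.card := by
          rw [hU2card]
          have h1 : (1 - ε j) * U'.card ≤ U'.card - X.card := by linarith
          refine le_trans ?_ h1
          have hε1 : ε j ≤ 1 / 2 := by
            have := hEle j
            rw [hEj] at this
            linarith
          have h2 : (1 - ε j) * (N / 2 * (1 + 2 * E j)) ≤ (1 - ε j) * U'.card :=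
            mul_le_mul_of_nonneg_left hU' (by linarith)
          refine le_trans ?_ h2
          have h3 : (1 + 2 * E (j + 1)) ≤ (1 - ε j) * (1 + 2 * E j) := by
            rw [hEj]
            have h4 := hEle j
            rw [hEj] at h4
            nlinarith [hε0 j]
          calc N / 2 * (1 + 2 * E (j + 1)) ≤ N / 2 * ((1 - ε j) * (1 + 2 * E j)) :=
                mul_le_mul_of_nonneg_left h3 (by positivity)
            _ = _ := by ring
        have hrec := ih (j + 1) (by omega) U2 (sdiff_subset.trans hU'0) hbig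
        refine BlueEmb.mono (U := U2) ?_ Subset.rfl sdiff_subset
        refine BlueEmb.extend (D := D) (b := b j) (hc.anti j) hrec hDpos.le (hc.bound j hjJ) ?_ ?_
        · intro x hx
          rw [hU2, mem_sdiff, hX, mem_filter, not_and, not_lt] at hx
          have h1 := hx.2 hx.1
          refine le_trans ?_ h1
          exact_mod_cast card_le_card (nb_mono (R := R) (sdiff_subset : U' \ X ⊆ U') x)
        · have h1 : (b j : ℝ) * D = N / 8 := by
            rw [hD]; field_simp
          rw [h1]
          have h2 := hcardS j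
          have h3 : N / 2 ≤ U2.card := by
            refine le_trans ?_ hbig
            have : N / 2 * 1 ≤ N / 2 * (1 + 2 * E (j + 1)) :=
              mul_le_mul_of_nonneg_left (by linarith) (by positivity)
            linarith
          linarith
  apply key J 0 (by omega) U0 Subset.rfl
  have : N / 2 * (1 + 2 * E 0) ≤ N / 2 * (1 + 2 * (1 / 2)) :=
    mul_le_mul_of_nonneg_left (by linarith) (by positivity)
  linarith

end Pool.Agent.helper60.Rsl
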