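import Pool.Agent.helper60.Rsl.Step

/-! The chain of a graph and the bounds for the Ramsey numbers. -/

namespace Pool.Agent.helper60.Rsl

open Finset
open scoped Classical

variable {V W : Type*} {R : SimpleGraph V} {F : SimpleGraph W}

/-- The sum of `2^(j+1)` over `j < n` with `2^j ≤ d`. -/
theorem geom_aux (d n : ℕ) :
    ∑ j ∈ range n, (if 2 ^ j ≤ d then 2 ^ (j + 1) else 0) ≤ 4 * d ∧
    ∑ j ∈ range n, (if 2 ^ j ≤ d then 2 ^ (j + 1) else 0) ≤ 2 ^ (n + 1) := by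
  induction n with
  | zero => simp
  | succ n ih =>
    rw [sum_range_succ]
    have h1 : (2 : ℕ) ^ (n + 1 + 1) = 2 * 2 ^ (n + 1) := by rw [pow_succ]; ring
    have h2 : (2 : ℕ) ^ (n + 1) = 2 * 2 ^ n := by rw [pow_succ]; ring
    by_cases h : 2 ^ n ≤ d
    · rw [if_pos h]
      constructor
      · omega
      · omega
    · rw [if_neg h]
      constructor
      · omega
      · omega

theorem sum_two_pow (n : ℕ) : ∑ j ∈ range n, 2 ^ (j + 1) ≤ 2 * 2 ^ n := by
  induction n with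
  | zero => simp
  | succ n ih =>
    rw [sum_range_succ]
    have h1 : (2 : ℕ) ^ (n + 1) = 2 * 2 ^ n := by rw [pow_succ]; ring
    omega

section chain

variable [Fintype W]

/-- `F` is `D`-degenerate: every non-empty set `T` of vertices contains a vertex with at most `D`
neighbours in `T`. -/
def Degen (F : SimpleGraph W) (D : ℕ) : Prop :=
  ∀ T : Finset W, T.Nonempty → ∃ w ∈ T, (T.filter (fun y => F.Adj w y)).card ≤ D

/-- The `k`-core of `F`. -/
noncomputable def core (F : SimpleGraph W) (k : ℕ) : Finset W :=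
  univ.filter (fun w => ∃ T : Finset W, w ∈ T ∧
    ∀ x ∈ T, k ≤ (T.filter (fun y => F.Adj x y)).card)

theorem subset_core {F : SimpleGraph W} {k : ℕ} {T : Finset W}
    (hT : ∀ x ∈ T, k ≤ (T.filter (fun y => F.Adj x y)).card) : T ⊆ core F k :=
  fun w hw => mem_filter.2 ⟨mem_univ _, T, hw, hT⟩

theorem core_min {F : SimpleGraph W} {k : ℕ} {x : W} (hx : x ∈ core F k) :
    k ≤ ((core F k).filter (fun y => F.Adj x y)).card := by
  obtain ⟨T, hxT, hT⟩ := (mem_filter.1 hx).2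
  exact (hT x hxT).trans (card_le_card (filter_subset_filter _ (subset_core hT)))

theorem core_anti (F : SimpleGraph W) {k l : ℕ} (h : k ≤ l) : core F l ⊆ core F k :=
  subset_core fun _ hx => h.trans (core_min hx)

theorem core_bound {F : SimpleGraph W} {k : ℕ} {T : Finset W} (hT : core F k ⊂ T) :
    ∃ w ∈ T, w ∉ core F k ∧ (T.filter (fun y => F.Adj w y)).card < k := by
  by_contra hcon
  push Not at hcon
  have h1 : T ⊆ core F k := by
    apply subset_core
    intro x hx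
    by_cases hxc : x ∈ core F k
    · exact (core_min hxc).trans (card_le_card (filter_subset_filter _ hT.subset))
    · exact hcon x hx hxc
  exact hT.2 h1

theorem deg_eq (F : SimpleGraph W) (w : W) :
    (univ.filter (fun w' => F.Adj w w')).card = F.degree w := by
  rw [← SimpleGraph.card_neighborFinset_eq_degree, SimpleGraph.neighborFinset_eq_filter]

theorem core_deg {F : SimpleGraph W} {k : ℕ} {x : W} (hx : x ∈ core F k) : k ≤ F.degree x := by
  rw [← deg_eq]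
  exact (core_min hx).trans (card_le_card (filter_subset_filter _ (subset_univ _)))

/-- The chain of a graph without isolated vertices. -/
theorem exists_chain (F : SimpleGraph W) {D : ℕ} (hD : 1 ≤ D) (hFD : Degen F D)
    (hF : ∀ w, 1 ≤ F.degree w) :
    ∃ (J : ℕ) (S : ℕ → Finset W) (b : ℕ → ℕ), Chain F J S b ∧
      Bd J S b (4 * D) (8 * (F.edgeFinset.card : ℝ)) ∧ S 0 = univ := by
  set m := F.edgeFinset.card with hmdef
  have hlog : 2 ^ Nat.log 2 D ≤ D := Nat.pow_log_le_self 2 (by omega)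
  have hlog2 : D < 2 ^ (Nat.log 2 D + 1) := Nat.lt_pow_succ_log_self (by norm_num) D
  set J := Nat.log 2 D + 1 with hJ
  have h2J : 2 ^ J ≤ 2 * D := by
    rw [hJ, pow_succ]; omega
  refine ⟨J, fun j => core F (2 ^ j), fun j => 2 ^ (j + 1), ⟨?_, ?_, ?_, ?_⟩, ⟨?_, ?_, ?_⟩, ?_⟩
  · intro j
    exact core_anti F (Nat.pow_le_pow_right (by norm_num) (Nat.le_succ j))
  · rw [← not_nonempty_iff_eq_empty]
    intro hne
    obtain ⟨w, hw, hw2⟩ := hFD _ hne
    have := core_min hw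
    omega
  · intro j hj T hT1 hT2
    obtain ⟨w, hw1, hw2, hw3⟩ := core_bound hT1
    exact ⟨w, hw1, hw2, hw3.le⟩
  · intro j hj
    exact Nat.one_le_two_pow
  · have := sum_two_pow J
    omega
  · have h1 : (core F (2 ^ 0)).card ≤ 2 * m := by
      rw [hmdef, ← SimpleGraph.sum_degrees_eq_twice_card_edges]
      calc (core F (2 ^ 0)).card = ∑ w ∈ core F (2 ^ 0), 1 := by simp
        _ ≤ ∑ w ∈ core F (2 ^ 0), F.degree w := sum_le_sum fun w hw => by
            have := core_deg hw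
            simpa using this
        _ ≤ ∑ w, F.degree w := sum_le_sum_of_subset (subset_univ _)
    have h2 : ((core F (2 ^ 0)).card : ℝ) ≤ 2 * m := by exact_mod_cast h1
    have h3 : (0 : ℝ) ≤ m := Nat.cast_nonneg _
    show ((core F (2 ^ 0)).card : ℝ) ≤ 8 * (m : ℝ)
    linarith
  · have key : ∑ j ∈ range J, 2 ^ (j + 1) * (core F (2 ^ j)).card ≤ 8 * m := by
      have h2 : ∑ j ∈ range J, 2 ^ (j + 1) * (core F (2 ^ j)).card ≤
          ∑ w : W, ∑ j ∈ range J, (if 2 ^ j ≤ F.degree w then 2 ^ (j + 1) else 0) := by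
        rw [sum_comm]
        apply sum_le_sum
        intro j hj
        rw [← sum_filter, sum_const, smul_eq_mul, mul_comm]
        apply Nat.mul_le_mul_right
        apply card_le_card
        intro w hw
        exact mem_filter.2 ⟨mem_univ _, core_deg hw⟩
      refine h2.trans ?_
      calc ∑ w : W, ∑ j ∈ range J, (if 2 ^ j ≤ F.degree w then 2 ^ (j + 1) else 0)
          ≤ ∑ w : W, 4 * F.degree w := sum_le_sum fun _ _ => (geom_aux _ _).1
        _ = 8 * m := by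
            rw [← mul_sum, SimpleGraph.sum_degrees_eq_twice_card_edges, ← hmdef]; ring
    exact_mod_cast key
  · apply eq_univ_of_forall
    intro w
    apply subset_core (T := univ) _ (mem_univ w)
    intro x _
    rw [deg_eq, pow_zero]
    exact hF x

end chain

/-- The closed form. -/
theorem Gg_closed {q : ℕ} {m κ : ℝ} (hm : 1 ≤ m) (hκ : 1 ≤ κ) (hq : (q : ℝ) ≤ 4 * κ) (i : ℕ) :
    ∃ K : ℝ, K = 8 * 23 ^ i ∧ Gg q (8 * m) i ≤
      K * (m + (κ ^ (5 / 2 : ℝ)) ^ (1 - (1 / 3 : ℝ) ^ i) * m ^ ((1 / 3 : ℝ) ^ i)) := by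
  set x := κ ^ (5 / 2 : ℝ) with hx
  have hx0 : 0 < x := by positivity
  have hm0 : 0 < m := by linarith
  have hκ0 : 0 < κ := by linarith
  induction i with
  | zero =>
    refine ⟨_, rfl, ?_⟩
    rw [Gg]
    simp only [pow_zero, sub_self, Real.rpow_zero, Real.rpow_one, mul_one, one_mul]
    linarith
  | succ i ih =>
    refine ⟨_, rfl, ?_⟩
    obtain ⟨K, hK, ih⟩ := ih
    have hK1 : 1 ≤ K := by
      rw [hK]
      have : (1 : ℝ) ≤ 23 ^ i := one_le_pow₀ (by norm_num)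
      linarith
    have hK12 : 8 ≤ K := by
      rw [hK]
      have : (1 : ℝ) ≤ 23 ^ i := one_le_pow₀ (by norm_num)
      linarith
    set t : ℝ := (1 / 3 : ℝ) ^ i with ht
    have ht0 : 0 < t := by positivity
    have ht1 : t ≤ 1 := pow_le_one₀ (by norm_num) (by norm_num)
    have ht' : (1 / 3 : ℝ) ^ (i + 1) = t / 3 := by rw [pow_succ, ht]; ring
    rw [ht', Gg]
    have hG0 : 0 ≤ Gg q (8 * m) i := (by positivity : (0 : ℝ) ≤ 8 * m).trans
      (Gg_pos q (by positivity) i)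
    -- `q^(5/3) ≤ 11 x^(2/3)`
    have hq53 : (q : ℝ) ^ (5 / 3 : ℝ) ≤ 11 * x ^ (2 / 3 : ℝ) := by
      have h1 : (q : ℝ) ^ (5 / 3 : ℝ) ≤ (4 * κ) ^ (5 / 3 : ℝ) :=
        Real.rpow_le_rpow (Nat.cast_nonneg _) hq (by norm_num)
      have h2 : (4 * κ) ^ (5 / 3 : ℝ) = 4 ^ (5 / 3 : ℝ) * κ ^ (5 / 3 : ℝ) :=
        Real.mul_rpow (by norm_num) hκ0.le
      have h3 : x ^ (2 / 3 : ℝ) = κ ^ (5 / 3 : ℝ) := by
        rw [hx, ← Real.rpow_mul hκ0.le]; norm_num
      have h4 : (4 : ℝ) ^ (5 / 3 : ℝ) ≤ 11 := by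
        have h5 : ((4 : ℝ) ^ (5 / 3 : ℝ)) ^ 3 ≤ 11 ^ 3 := by
          rw [← Real.rpow_natCast, ← Real.rpow_mul (by norm_num)]
          have h6 : (5 / 3 : ℝ) * ((3 : ℕ) : ℝ) = ((5 : ℕ) : ℝ) := by norm_num
          rw [h6, Real.rpow_natCast]
          norm_num
        exact le_of_pow_le_pow_left₀ (by norm_num) (by norm_num) h5
      rw [h3]
      calc (q : ℝ) ^ (5 / 3 : ℝ) ≤ 4 ^ (5 / 3 : ℝ) * κ ^ (5 / 3 : ℝ) := h2 ▸ h1
        _ ≤ 11 * κ ^ (5 / 3 : ℝ) := mul_le_mul_of_nonneg_right h4 (by positivity)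
    -- `G^(1/3) ≤ K (m^(1/3) + x^((1-t)/3) m^(t/3))`
    have hG13 : (Gg q (8 * m) i) ^ (1 / 3 : ℝ) ≤
        K * (m ^ (1 / 3 : ℝ) + x ^ ((1 - t) / 3) * m ^ (t / 3)) := by
      have h1 : (Gg q (8 * m) i) ^ (1 / 3 : ℝ) ≤ (K * (m + x ^ (1 - t) * m ^ t)) ^ (1 / 3 : ℝ) :=
        Real.rpow_le_rpow hG0 ih (by norm_num)
      have h2 : (K * (m + x ^ (1 - t) * m ^ t)) ^ (1 / 3 : ℝ) =
          K ^ (1 / 3 : ℝ) * (m + x ^ (1 - t) * m ^ t) ^ (1 / 3 : ℝ) :=
        Real.mul_rpow (by linarith) (by positivity)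
      have h3 : K ^ (1 / 3 : ℝ) ≤ K := by
        calc K ^ (1 / 3 : ℝ) ≤ K ^ (1 : ℝ) := Real.rpow_le_rpow_of_exponent_le hK1 (by norm_num)
          _ = K := Real.rpow_one _
      have h4 : (m + x ^ (1 - t) * m ^ t) ^ (1 / 3 : ℝ) ≤
          m ^ (1 / 3 : ℝ) + (x ^ (1 - t) * m ^ t) ^ (1 / 3 : ℝ) :=
        Real.rpow_add_le_add_rpow hm0.le (by positivity) (by norm_num) (by norm_num)
      have h5 : (x ^ (1 - t) * m ^ t) ^ (1 / 3 : ℝ) = x ^ ((1 - t) / 3) * m ^ (t / 3) := by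
        rw [Real.mul_rpow (by positivity) (by positivity), ← Real.rpow_mul hx0.le,
          ← Real.rpow_mul hm0.le]
        congr 2
        ring
      rw [h5] at h4
      rw [h2] at h1
      refine h1.trans ?_
      exact mul_le_mul h3 h4 (by positivity) (by linarith)
    -- the middle term
    have hmid : x ^ (2 / 3 : ℝ) * m ^ (1 / 3 : ℝ) ≤ m + x ^ (1 - t / 3) * m ^ (t / 3) := by
      rcases le_total x m with hxm | hxm
      · have h1 : x ^ (2 / 3 : ℝ) ≤ m ^ (2 / 3 : ℝ) := Real.rpow_le_rpow hx0.le hxm (by norm_num)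
        have h2 : m ^ (2 / 3 : ℝ) * m ^ (1 / 3 : ℝ) = m := by
          rw [← Real.rpow_add hm0]; norm_num
        have h3 : x ^ (2 / 3 : ℝ) * m ^ (1 / 3 : ℝ) ≤ m ^ (2 / 3 : ℝ) * m ^ (1 / 3 : ℝ) :=
          mul_le_mul_of_nonneg_right h1 (by positivity)
        have h4 : 0 ≤ x ^ (1 - t / 3) * m ^ (t / 3) := by positivity
        linarith
      · have h1 : m ^ (1 / 3 : ℝ) = m ^ (1 / 3 - t / 3) * m ^ (t / 3) := by
          rw [← Real.rpow_add hm0]; congr 1; ring
        have h2 : m ^ (1 / 3 - t / 3) ≤ x ^ (1 / 3 - t / 3) :=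
          Real.rpow_le_rpow hm0.le hxm (by linarith)
        have h3 : x ^ (1 - t / 3) = x ^ (2 / 3 : ℝ) * x ^ (1 / 3 - t / 3) := by
          rw [← Real.rpow_add hx0]; congr 1; ring
        rw [h1, h3]
        have h4 : x ^ (2 / 3 : ℝ) * (m ^ (1 / 3 - t / 3) * m ^ (t / 3)) ≤
            x ^ (2 / 3 : ℝ) * x ^ (1 / 3 - t / 3) * m ^ (t / 3) := by
          rw [mul_assoc]
          apply mul_le_mul_of_nonneg_left _ (by positivity)
          exact mul_le_mul_of_nonneg_right h2 (by positivity)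
        linarith
    have hlast : x ^ (2 / 3 : ℝ) * (x ^ ((1 - t) / 3) * m ^ (t / 3)) =
        x ^ (1 - t / 3) * m ^ (t / 3) := by
      rw [← mul_assoc, ← Real.rpow_add hx0]
      congr 2; ring
    set y := x ^ (1 - t / 3) * m ^ (t / 3) with hy
    have hy0 : 0 ≤ y := by positivity
    have h1 : (q : ℝ) ^ (5 / 3 : ℝ) * (Gg q (8 * m) i) ^ (1 / 3 : ℝ) ≤
        (11 * x ^ (2 / 3 : ℝ)) * (K * (m ^ (1 / 3 : ℝ) + x ^ ((1 - t) / 3) * m ^ (t / 3))) :=
      mul_le_mul hq53 hG13 (by positivity) (by positivity)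
    have h2 : (11 * x ^ (2 / 3 : ℝ)) * (K * (m ^ (1 / 3 : ℝ) + x ^ ((1 - t) / 3) * m ^ (t / 3))) =
        11 * K * (x ^ (2 / 3 : ℝ) * m ^ (1 / 3 : ℝ) +
          x ^ (2 / 3 : ℝ) * (x ^ ((1 - t) / 3) * m ^ (t / 3))) := by ring
    rw [h2, hlast] at h1
    have h3 : 11 * K * (x ^ (2 / 3 : ℝ) * m ^ (1 / 3 : ℝ) + y) ≤ 11 * K * (m + y + y) := by
      apply mul_le_mul_of_nonneg_left _ (by positivity)
      linarith
    have h4 : (8 : ℝ) * 23 ^ (i + 1) = 23 * K := by rw [hK, pow_succ]; ring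
    rw [h4]
    have h5 : 0 ≤ K * m := by positivity
    have h6 : 0 ≤ K * y := by positivity
    have h7 : 8 * m ≤ K * m := mul_le_mul_of_nonneg_right hK12 hm0.le
    nlinarith

/-- Every red/blue colouring of the edges of the complete graph on `N` vertices (`R` is the red
graph) contains a red copy of `G` or a blue copy of `F`. -/
def Arrows {A B : Type*} (N : ℕ) (G : SimpleGraph A) (F : SimpleGraph B) : Prop :=
  ∀ R : SimpleGraph (Fin N), G.IsContained R ∨ F.IsContained Rᶜ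

/-- The Ramsey number `R(G, F)`. -/
noncomputable def ramsey {A B : Type*} (G : SimpleGraph A) (F : SimpleGraph B) : ℕ :=
  sInf {N | Arrows N G F}

theorem contained_of_blueEmb {N : ℕ} {R : SimpleGraph (Fin N)} [Fintype W] {F : SimpleGraph W}
    {U : Finset (Fin N)} (h : BlueEmb R F univ U) : F.IsContained Rᶜ := by
  obtain ⟨f, -, h2, h3⟩ := h
  have hinj : Function.Injective f := fun a b hab =>
    h2 (by simp) (by simp) hab
  refine ⟨⟨⟨f, fun {a b} hab => ?_⟩, hinj⟩⟩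
  rw [SimpleGraph.compl_adj]
  exact ⟨fun h => hab.ne (hinj h), h3 a (mem_univ _) b (mem_univ _) hab⟩

theorem ramsey_le {A B : Type*} {G : SimpleGraph A} {F : SimpleGraph B} {x : ℝ} (hx : 0 ≤ x)
    (h : ∀ N : ℕ, x ≤ N → Arrows N G F) : (ramsey G F : ℝ) ≤ x + 1 := by
  have h1 : ramsey G F ≤ ⌈x⌉₊ := Nat.sInf_le (h _ (Nat.le_ceil x))
  have h2 : (ramsey G F : ℝ) ≤ (⌈x⌉₊ : ℝ) := by exact_mod_cast h1
  exact h2.trans (Nat.ceil_lt_add_one hx).le

/-- The case of arbitrary `F`. -/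
theorem arrows_general (s : ℕ) {A : Type*} {G : SimpleGraph A} (hG : G.IsContained (Kp s))
    [Fintype W] (F : SimpleGraph W) (hm : 1 ≤ F.edgeFinset.card) (hF : ∀ w, 1 ≤ F.degree w)
    {D : ℕ} (hD : 1 ≤ D) (hFD : Degen F D) (N : ℕ)
    (hN : 16384 * ((s : ℝ) + 4) * F.edgeFinset.card +
      12100 * 32 * ((s : ℝ) + 1) ^ 2 * (D : ℝ) ^ (5 / 2 : ℝ) ≤ N) : Arrows N G F := by
  intro R
  by_cases hGR : G.IsContained R
  · exact Or.inl hGR
  · right
    have hR : FewCommon R s := fewCommon_of_free (fun h => hGR (hG.trans h))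
    obtain ⟨J, S, b, hc, hb, hS0⟩ := exists_chain F hD hFD hF
    have hs0 : (0 : ℝ) ≤ s := Nat.cast_nonneg _
    have hm1 : (1 : ℝ) ≤ F.edgeFinset.card := by exact_mod_cast hm
    have hD0 : (0 : ℝ) ≤ D := Nat.cast_nonneg _
    have hq52 : ((4 * D : ℕ) : ℝ) ^ (5 / 2 : ℝ) = 32 * (D : ℝ) ^ (5 / 2 : ℝ) := by
      have h2 : (4 : ℝ) ^ (5 / 2 : ℝ) = 32 := by
        rw [show (4 : ℝ) = 2 ^ (2 : ℝ) by norm_num, ← Real.rpow_mul (by norm_num)]
        have : (2 : ℝ) * (5 / 2) = ((5 : ℕ) : ℝ) := by norm_num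
        rw [this, Real.rpow_natCast]; norm_num
      rw [Nat.cast_mul, Nat.cast_ofNat, Real.mul_rpow (by norm_num) hD0, h2]
    have hmain := general hR (q := 4 * D) (M := 8 * (F.edgeFinset.card : ℝ)) (by omega)
      (by positivity) hc hb (U := (univ : Finset (Fin N))) ?_ ?_
    · rw [hS0] at hmain
      exact contained_of_blueEmb hmain
    · rw [card_univ, Fintype.card_fin]
      have : 0 ≤ 12100 * 32 * ((s : ℝ) + 1) ^ 2 * (D : ℝ) ^ (5 / 2 : ℝ) := by positivity
      linarith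
    · rw [card_univ, Fintype.card_fin, hq52]
      have h2 : 0 ≤ 16384 * ((s : ℝ) + 4) * F.edgeFinset.card := by positivity
      linarith

/-- The case of `F` with a colouring in `i + 2` colours. -/
theorem arrows_colors (s i : ℕ) {A : Type*} {G : SimpleGraph A} (hG : G.IsContained (Kp s))
    [Fintype W] (F : SimpleGraph W) (hm : 1 ≤ F.edgeFinset.card) (hF : ∀ w, 1 ≤ F.degree w)
    {D : ℕ} (hD : 1 ≤ D) (hFD : Degen F D) (hcol : F.Colorable (i + 2)) (N : ℕ)
    (hN : Cc s i * (8 * 23 ^ i) * ((F.edgeFinset.card : ℝ) +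
      ((D : ℝ) ^ (5 / 2 : ℝ)) ^ (1 - (1 / 3 : ℝ) ^ i) * (F.edgeFinset.card : ℝ) ^ ((1 / 3 : ℝ) ^ i))
      ≤ N) : Arrows N G F := by
  intro R
  by_cases hGR : G.IsContained R
  · exact Or.inl hGR
  · right
    have hR : FewCommon R s := fewCommon_of_free (fun h => hGR (hG.trans h))
    obtain ⟨J, S, b, hc, hb, hS0⟩ := exists_chain F hD hFD hF
    have hm1 : (1 : ℝ) ≤ F.edgeFinset.card := by exact_mod_cast hm
    have hD1 : (1 : ℝ) ≤ D := by exact_mod_cast hD
    obtain ⟨C⟩ := hcol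
    obtain ⟨K, hK, hG⟩ := Gg_closed (q := 4 * D) hm1 hD1 (by push_cast; exact le_rfl) i
    have hC1 := one_le_Cc s i
    have hmain := many_colors hR (q := 4 * D) (M := 8 * (F.edgeFinset.card : ℝ)) (by omega)
      (by positivity) (fun w => (C w : ℕ)) (fun w w' h h' => C.valid h (Fin.ext h')) i hc hb
      (fun w _ => (C w).2) (univ : Finset (Fin N)) ?_
    · rw [hS0] at hmain
      exact contained_of_blueEmb hmain
    · rw [card_univ, Fintype.card_fin]
      refine le_trans ?_ hN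
      rw [mul_assoc]
      apply mul_le_mul_of_nonneg_left _ (by linarith)
      rw [← hK]
      exact hG

end Pool.Agent.helper60.Rsl
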