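import Pool.Agent.helper60.Rsl.Basic

/-! The local lemma: in a graph without `K_{2,s+2}` plus an edge, large average degree gives either
an embedding or a vertex `a` with a large neighbourhood and a large set of vertices with few
neighbours in it. -/

namespace Pool.Agent.helper60.Rsl

open Finset
open scoped Classical

variable {V W : Type*} {R : SimpleGraph V} {F : SimpleGraph W}

/-- Two vertices with two adjacent common neighbours have at most `s + 1` common neighbours. -/
def FewCommon (R : SimpleGraph V) (s : ℕ) : Prop :=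
  ∀ (U : Finset V) (x y u v : V), x ≠ y → R.Adj u v → R.Adj x u → R.Adj x v → R.Adj y u →
    R.Adj y v → (U.filter (fun z => R.Adj x z ∧ R.Adj y z)).card ≤ s + 1

/-- `b ∈ T(a)`: `b ≠ a` has two adjacent common neighbours (in `U`) with `a`. -/
noncomputable def TT (R : SimpleGraph V) (U : Finset V) (a : V) : Finset V :=
  U.filter (fun b => b ≠ a ∧ ∃ u ∈ U, ∃ v ∈ U, R.Adj u v ∧ R.Adj a u ∧ R.Adj a v ∧ R.Adj b u ∧
    R.Adj b v)

/-- The greedy embedding of the member `S j` of a chain. -/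
theorem chain_greedy {J : ℕ} {S : ℕ → Finset W} {b : ℕ → ℕ} (hc : Chain F J S b) {q : ℕ}
    (hq : ∀ j < J, b j ≤ q) {U : Finset V} {D : ℝ} (hD0 : 0 ≤ D)
    (hD : ∀ x ∈ U, ((nb R U x).card : ℝ) ≤ D) (j : ℕ) (hj : j ≤ J)
    (hU : ((S j).card : ℝ) + (min q (S j).card : ℕ) * D < U.card) : BlueEmb R F (S j) U := by
  have hne : U.Nonempty := by
    rw [← card_pos]
    have : (0 : ℝ) < U.card := lt_of_le_of_lt (by positivity) hU
    exact_mod_cast this
  have hanti : ∀ i, j ≤ i → S i ⊆ S j := by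
    intro i hi
    induction i, hi using Nat.le_induction with
    | base => exact Subset.rfl
    | succ i _ ih => exact (hc.anti i).trans ih
  have key : ∀ d i, i + d = J → j ≤ i → BlueEmb R F (S i) U := by
    intro d
    induction d with
    | zero =>
      intro i hi _
      have : i = J := by omega
      rw [this, hc.last]
      exact blueEmb_empty hne
    | succ d ih =>
      intro i hi hji
      have h1 := ih (i + 1) (by omega) (by omega)
      refine BlueEmb.extend (hc.anti i) h1 hD0 (b := min q (S j).card) ?_ hD ?_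
      · intro T hT1 hT2
        obtain ⟨w, hwT, hw1, hw2⟩ := hc.bound i (by omega) T hT1 hT2
        refine ⟨w, hwT, hw1, le_min (hw2.trans (hq i (by omega))) ?_⟩
        exact (card_le_card (filter_subset _ _)).trans (card_le_card (hT2.trans (hanti i hji)))
      · refine lt_of_le_of_lt ?_ hU
        gcongr
        exact hanti i hji
  exact key (J - j) j (by omega) le_rfl

/-- If `S j` does not embed into `Q`, then `Q` has many red edges. -/
theorem many_edges {J : ℕ} {S : ℕ → Finset W} {b : ℕ → ℕ} (hc : Chain F J S b) {q : ℕ}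
    (hq : ∀ j < J, b j ≤ q) {Q : Finset V} (j : ℕ) (hj : j ≤ J)
    (hQ : 4 * (S j).card ≤ Q.card) (hm : 1 ≤ min q (S j).card) (hn : ¬ BlueEmb R F (S j) Q) :
    (Q.card : ℝ) ^ 2 ≤ 16 * (min q (S j).card : ℕ) * e2 R Q := by
  by_contra hlt
  push Not at hlt
  apply hn
  set m : ℝ := ((min q (S j).card : ℕ) : ℝ) with hmdef
  have hm1 : (1 : ℝ) ≤ m := by rw [hmdef]; exact_mod_cast hm
  have hSpos : 1 ≤ (S j).card := hm.trans (min_le_right _ _)
  have hQpos : (0 : ℝ) < Q.card := by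
    have : 0 < Q.card := by omega
    exact_mod_cast this
  set D : ℝ := Q.card / (8 * m) with hD
  have hDpos : 0 < D := by positivity
  set X := Q.filter (fun x => D < ((nb R Q x).card : ℝ)) with hX
  set Q2 := Q \ X with hQ2
  have hXcard : (X.card : ℝ) ≤ Q.card / 2 := by
    have h1 := trim R Q D
    have h2 : (X.card : ℝ) ≤ e2 R Q / D := by
      rw [le_div_iff₀ hDpos]; exact h1
    refine h2.trans ?_
    rw [div_le_iff₀ hDpos, hD]
    have h3 : (Q.card : ℝ) / 2 * (Q.card / (8 * m)) = Q.card ^ 2 / (16 * m) := by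
      field_simp; ring
    rw [h3, le_div_iff₀ (by positivity)]
    linarith
  have hQ2card : (Q2.card : ℝ) = Q.card - X.card := by
    rw [hQ2, card_sdiff_of_subset (filter_subset _ _), Nat.cast_sub
      (card_le_card (filter_subset _ _))]
  refine BlueEmb.mono (U := Q2) ?_ Subset.rfl sdiff_subset
  apply chain_greedy hc hq hDpos.le ?_ j hj
  · have h4 : ((min q (S j).card : ℕ) : ℝ) * D = Q.card / 8 := by
      rw [← hmdef, hD]; field_simp
    rw [h4, hQ2card]
    have h5 : (4 : ℝ) * (S j).card ≤ Q.card := by exact_mod_cast hQ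
    linarith
  · intro x hx
    rw [hQ2, mem_sdiff, hX, mem_filter, not_and, not_lt] at hx
    have h1 := hx.2 hx.1
    refine le_trans ?_ h1
    exact_mod_cast card_le_card (nb_mono (R := R) (sdiff_subset : Q \ X ⊆ Q) x)

/-- Counting: the sum over the vertices `a` of a set `A` of the number of ordered red pairs inside
the neighbourhood of `a`. -/
theorem sum_e2 (U A : Finset V) :
    ∑ a ∈ A, e2 R (nb R U a) = ∑ u ∈ U, ∑ v ∈ nb R U u,
      (A.filter (fun a => R.Adj a u ∧ R.Adj a v)).card := by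
  have h1 : ∀ a, e2 R (nb R U a) = ∑ u ∈ U, ∑ v ∈ nb R U u,
      if R.Adj a u ∧ R.Adj a v then 1 else 0 := by
    intro a
    unfold e2
    rw [nb, sum_filter]
    refine sum_congr rfl fun u _ => ?_
    by_cases hau : R.Adj a u
    · rw [if_pos hau]
      unfold nb
      rw [filter_filter, card_filter, sum_filter]
      refine sum_congr rfl fun v _ => ?_
      by_cases h1 : R.Adj a v <;> by_cases h2 : R.Adj u v <;> simp [hau, h1, h2]
    · rw [if_neg hau]
      symm
      apply sum_eq_zero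
      intro v _
      rw [if_neg (fun h => hau h.1)]
  simp_rw [h1, card_filter]
  rw [sum_comm]
  refine sum_congr rfl fun u _ => ?_
  rw [sum_comm]

/-- The second moment. -/
theorem sum_sq {s : ℕ} (hR : FewCommon R s) (U A : Finset V) (hA : A ⊆ U) :
    ∑ u ∈ U, ∑ v ∈ nb R U u, (A.filter (fun a => R.Adj a u ∧ R.Adj a v)).card ^ 2 ≤
      ∑ u ∈ U, ∑ v ∈ nb R U u, (A.filter (fun a => R.Adj a u ∧ R.Adj a v)).card +
      (s + 1) ^ 2 * ∑ a ∈ A, (TT R U a).card := by
  -- pairs `(a, b)` of common neighbours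
  have h1 : ∀ u v, (A.filter (fun a => R.Adj a u ∧ R.Adj a v)).card ^ 2 =
      (A.filter (fun a => R.Adj a u ∧ R.Adj a v)).card +
      ∑ a ∈ A, ∑ b ∈ A.filter (fun b => b ≠ a),
        if (R.Adj a u ∧ R.Adj a v) ∧ (R.Adj b u ∧ R.Adj b v) then 1 else 0 := by
    intro u v
    set P := A.filter (fun a => R.Adj a u ∧ R.Adj a v) with hP
    have h2 : ∑ a ∈ A, ∑ b ∈ A.filter (fun b => b ≠ a),
        (if (R.Adj a u ∧ R.Adj a v) ∧ (R.Adj b u ∧ R.Adj b v) then 1 else 0 : ℕ) =
        ∑ a ∈ P, (P.filter (fun b => b ≠ a)).card := by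
      rw [hP, sum_filter]
      refine sum_congr rfl fun a _ => ?_
      by_cases ha : R.Adj a u ∧ R.Adj a v
      · rw [if_pos ha, filter_filter, card_filter, sum_filter]
        refine sum_congr rfl fun b _ => ?_
        by_cases hb : b = a
        · simp [hb]
        · by_cases hb2 : R.Adj b u ∧ R.Adj b v
          · simp [hb, ha, hb2]
          · rw [if_pos hb, if_neg (fun h => hb2 h.2), if_neg (fun h => hb2 h.1)]
      · rw [if_neg ha]
        apply sum_eq_zero
        intro b _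
        rw [if_neg (fun h => ha h.1)]
    rw [h2]
    have h3 : ∀ a ∈ P, (P.filter (fun b => b ≠ a)).card = P.card - 1 := by
      intro a ha
      rw [filter_ne', card_erase_of_mem ha]
    rw [sum_congr rfl h3, sum_const, smul_eq_mul]
    rcases Nat.eq_zero_or_pos P.card with h0 | h0
    · rw [h0]; rfl
    · obtain ⟨k, hk⟩ : ∃ k, P.card = k + 1 := ⟨P.card - 1, by omega⟩
      rw [hk]
      simp only [Nat.add_sub_cancel]
      ring
  simp_rw [h1]
  simp_rw [sum_add_distrib]
  apply Nat.add_le_add_left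
  -- exchange the sums
  have h4 : ∑ u ∈ U, ∑ v ∈ nb R U u, ∑ a ∈ A, ∑ b ∈ A.filter (fun b => b ≠ a),
      (if (R.Adj a u ∧ R.Adj a v) ∧ (R.Adj b u ∧ R.Adj b v) then 1 else 0 : ℕ) =
      ∑ a ∈ A, ∑ b ∈ A.filter (fun b => b ≠ a), ∑ u ∈ U, ∑ v ∈ nb R U u,
      (if (R.Adj a u ∧ R.Adj a v) ∧ (R.Adj b u ∧ R.Adj b v) then 1 else 0 : ℕ) := by
    calc _ = ∑ u ∈ U, ∑ a ∈ A, ∑ v ∈ nb R U u, ∑ b ∈ A.filter (fun b => b ≠ a),
      (if (R.Adj a u ∧ R.Adj a v) ∧ (R.Adj b u ∧ R.Adj b v) then 1 else 0 : ℕ) :=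
          sum_congr rfl fun u _ => sum_comm
      _ = ∑ a ∈ A, ∑ u ∈ U, ∑ v ∈ nb R U u, ∑ b ∈ A.filter (fun b => b ≠ a),
      (if (R.Adj a u ∧ R.Adj a v) ∧ (R.Adj b u ∧ R.Adj b v) then 1 else 0 : ℕ) := sum_comm
      _ = ∑ a ∈ A, ∑ u ∈ U, ∑ b ∈ A.filter (fun b => b ≠ a), ∑ v ∈ nb R U u,
      (if (R.Adj a u ∧ R.Adj a v) ∧ (R.Adj b u ∧ R.Adj b v) then 1 else 0 : ℕ) :=
          sum_congr rfl fun a _ => sum_congr rfl fun u _ => sum_comm
      _ = _ := sum_congr rfl fun a _ => sum_comm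
  rw [h4, mul_sum]
  apply sum_le_sum
  intro a _
  -- for fixed `a`, only `b ∈ TT a` contribute, each at most `(s+1)^2`
  have h5 : ∀ b ∈ A.filter (fun b => b ≠ a), ∑ u ∈ U, ∑ v ∈ nb R U u,
      (if (R.Adj a u ∧ R.Adj a v) ∧ (R.Adj b u ∧ R.Adj b v) then 1 else 0 : ℕ) ≤
      if b ∈ TT R U a then (s + 1) ^ 2 else 0 := by
    intro b hb
    rw [mem_filter] at hb
    by_cases hT : b ∈ TT R U a
    · rw [if_pos hT]
      have hT' := (mem_filter.1 hT).2
      obtain ⟨-, u0, hu0, v0, hv0, h6, h7, h8, h9, h10⟩ := hT'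
      have hcn := hR U a b u0 v0 (fun h => hb.2 h.symm) h6 h7 h8 h9 h10
      set C := U.filter (fun z => R.Adj a z ∧ R.Adj b z) with hC
      calc ∑ u ∈ U, ∑ v ∈ nb R U u,
            (if (R.Adj a u ∧ R.Adj a v) ∧ (R.Adj b u ∧ R.Adj b v) then 1 else 0 : ℕ)
          ≤ ∑ u ∈ U, ∑ v ∈ U, (if u ∈ C ∧ v ∈ C then 1 else 0 : ℕ) := by
            apply sum_le_sum
            intro u hu
            refine (sum_le_sum_of_subset (nb_subset R U u)).trans ?_
            apply sum_le_sum
            intro v hv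
            by_cases h : (R.Adj a u ∧ R.Adj a v) ∧ (R.Adj b u ∧ R.Adj b v)
            · rw [if_pos h, if_pos ⟨mem_filter.2 ⟨hu, h.1.1, h.2.1⟩,
                mem_filter.2 ⟨hv, h.1.2, h.2.2⟩⟩]
            · rw [if_neg h]; exact Nat.zero_le _
        _ = C.card ^ 2 := by
            have hUC : U ∩ C = C := inter_eq_right.2 (filter_subset _ _)
            have h11 : ∀ u ∈ U, ∑ v ∈ U, (if u ∈ C ∧ v ∈ C then 1 else 0 : ℕ) =
                if u ∈ C then C.card else 0 := by
              intro u _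
              by_cases hu : u ∈ C
              · simp only [hu, true_and]
                rw [sum_ite_mem, hUC, if_pos trivial, card_eq_sum_ones]
              · rw [if_neg hu]
                apply sum_eq_zero
                intro v _
                rw [if_neg (fun h => hu h.1)]
            rw [sum_congr rfl h11, sum_ite_mem, hUC, sum_const, smul_eq_mul, pow_two]
        _ ≤ (s + 1) ^ 2 := Nat.pow_le_pow_left hcn 2
    · rw [if_neg hT]
      apply le_of_eq
      apply sum_eq_zero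
      intro u hu
      apply sum_eq_zero
      intro v hv
      rw [if_neg]
      rintro ⟨⟨h6, h7⟩, h8, h9⟩
      apply hT
      rw [TT, mem_filter]
      exact ⟨hA hb.1, hb.2, u, hu, v, (mem_nb.1 hv).1, (mem_nb.1 hv).2, h6, h7, h8, h9⟩
  refine (sum_le_sum h5).trans ?_
  rw [← sum_filter, sum_const, smul_eq_mul, mul_comm]
  apply Nat.mul_le_mul_left
  apply card_le_card
  intro b hb
  exact (mem_filter.1 hb).2

/-- Existence of a vertex with large neighbourhood and large `TT`. -/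
theorem exists_tip {s : ℕ} (hR : FewCommon R s) {J : ℕ} {S : ℕ → Finset W} {b : ℕ → ℕ}
    (hc : Chain F J S b) {q : ℕ} (hq : ∀ j < J, b j ≤ q) {U : Finset V} (hU : U.Nonempty) (j : ℕ)
    (hj : j ≤ J) (hm : 1 ≤ min q (S j).card) {B : ℝ} (hB : B * U.card ≤ e2 R U)
    (hBh : 64 * ((s : ℝ) + 4) * (S j).card ≤ B) (hn : ¬ BlueEmb R F (S j) U) :
    ∃ a ∈ U, ((s : ℝ) + 4) * (S j).card ≤ (nb R U a).card ∧
      B ^ 3 ≤ 2048 * ((s : ℝ) + 1) ^ 2 * (min q (S j).card : ℕ) ^ 2 * (TT R U a).card := by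
  set h : ℝ := ((S j).card : ℝ) with hh
  set m : ℝ := ((min q (S j).card : ℕ) : ℝ) with hmdef
  have hm1 : (1 : ℝ) ≤ m := by rw [hmdef]; exact_mod_cast hm
  have hmh : m ≤ h := by
    rw [hmdef, hh]; exact_mod_cast min_le_right _ _
  have hs0 : (0 : ℝ) ≤ s := Nat.cast_nonneg _
  have hh1 : 1 ≤ h := hm1.trans hmh
  have hUpos : (0 : ℝ) < U.card := by exact_mod_cast card_pos.2 hU
  have hB64 : 64 * m ≤ B := by nlinarith
  have hBpos : 0 < B := by linarith
  set θ : ℝ := ((s : ℝ) + 4) * h with hθ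
  have hθB : 2 * θ ≤ B := by rw [hθ]; nlinarith
  set A := U.filter (fun a => θ ≤ ((nb R U a).card : ℝ)) with hA
  have hAU : A ⊆ U := filter_subset _ _
  set E : ℝ := (e2 R U : ℝ) with hE
  have hEsum : E = ∑ a ∈ U, ((nb R U a).card : ℝ) := by rw [hE, e2]; push_cast; rfl
  have hEpos : 0 < E := lt_of_lt_of_le (by positivity) hB
  -- (1)
  have h1 : E * B ≤ ∑ a ∈ U, ((nb R U a).card : ℝ) ^ 2 := by
    have hcs := sq_sum_le_card_mul_sum_sq (s := U) (f := fun a => ((nb R U a).card : ℝ))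
    rw [← hEsum] at hcs
    have h2 : E * B * U.card ≤ U.card * ∑ a ∈ U, ((nb R U a).card : ℝ) ^ 2 := by
      refine le_trans ?_ hcs
      nlinarith
    have h3 : (U.card : ℝ) * (E * B) ≤ U.card * ∑ a ∈ U, ((nb R U a).card : ℝ) ^ 2 := by
      linarith
    exact le_of_mul_le_mul_left h3 hUpos
  have h2 : ∑ a ∈ U \ A, ((nb R U a).card : ℝ) ^ 2 ≤ E * B / 2 := by
    have h3 : ∑ a ∈ U \ A, ((nb R U a).card : ℝ) ^ 2 ≤ ∑ a ∈ U \ A, θ * ((nb R U a).card : ℝ) := by
      apply sum_le_sum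
      intro a ha
      rw [mem_sdiff, hA, mem_filter, not_and, not_le] at ha
      have h4 := (ha.2 ha.1).le
      rw [pow_two]
      exact mul_le_mul_of_nonneg_right h4 (Nat.cast_nonneg _)
    have h4 : ∑ a ∈ U \ A, θ * ((nb R U a).card : ℝ) ≤ θ * E := by
      rw [← mul_sum, hEsum]
      apply mul_le_mul_of_nonneg_left _ (by positivity)
      exact sum_le_sum_of_subset_of_nonneg sdiff_subset fun _ _ _ => Nat.cast_nonneg _
    have h5 : θ * E ≤ E * B / 2 := by nlinarith
    linarith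
  have h3 : E * B / 2 ≤ ∑ a ∈ A, ((nb R U a).card : ℝ) ^ 2 := by
    have h4 := sum_sdiff (f := fun a => ((nb R U a).card : ℝ) ^ 2) hAU
    linarith
  -- (2)
  set X : ℝ := ∑ a ∈ A, (e2 R (nb R U a) : ℝ) with hX
  have h4 : E * B ≤ 32 * m * X := by
    have h5 : ∑ a ∈ A, ((nb R U a).card : ℝ) ^ 2 ≤ ∑ a ∈ A, 16 * m * (e2 R (nb R U a) : ℝ) := by
      apply sum_le_sum
      intro a ha
      rw [hA, mem_filter] at ha
      apply many_edges hc hq j hj ?_ hm
      · exact fun h => hn (h.mono Subset.rfl (nb_subset R U a))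
      · have h6 : (4 : ℝ) * (S j).card ≤ (nb R U a).card := by
          refine le_trans ?_ ha.2
          rw [hθ, ← hh]; nlinarith
        exact_mod_cast h6
    rw [← mul_sum, ← hX] at h5
    linarith
  -- (3)
  have h5 : X = ∑ u ∈ U, ∑ v ∈ nb R U u,
      ((A.filter (fun a => R.Adj a u ∧ R.Adj a v)).card : ℝ) := by
    rw [hX]
    have := sum_e2 (R := R) U A
    exact_mod_cast this
  have h6 : X ^ 2 ≤ E * ∑ u ∈ U, ∑ v ∈ nb R U u,
      ((A.filter (fun a => R.Adj a u ∧ R.Adj a v)).card : ℝ) ^ 2 := by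
    have hcs := sq_sum_le_card_mul_sum_sq (s := U.sigma (fun u => nb R U u))
      (f := fun z => ((A.filter (fun a => R.Adj a z.1 ∧ R.Adj a z.2)).card : ℝ))
    rw [sum_sigma, sum_sigma, card_sigma] at hcs
    rw [h5, hE, e2]
    exact hcs
  -- (4)
  have h7 : ∑ u ∈ U, ∑ v ∈ nb R U u,
      ((A.filter (fun a => R.Adj a u ∧ R.Adj a v)).card : ℝ) ^ 2 ≤
      X + ((s : ℝ) + 1) ^ 2 * ∑ a ∈ A, ((TT R U a).card : ℝ) := by
    rw [h5]
    have := sum_sq hR U A hAU
    exact_mod_cast this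
  have hXpos : 0 < X := by
    by_contra hle
    push Not at hle
    have : 32 * m * X ≤ 0 := mul_nonpos_of_nonneg_of_nonpos (by positivity) hle
    have h8 : 0 < E * B := by positivity
    linarith
  set TA : ℝ := ((s : ℝ) + 1) ^ 2 * ∑ a ∈ A, ((TT R U a).card : ℝ) with hTA
  have h8 : X ^ 2 ≤ E * (X + TA) := h6.trans (mul_le_mul_of_nonneg_left h7 hEpos.le)
  have h9 : 2 * E ≤ X := by
    -- `32 m X ≥ E B ≥ 64 m E`
    have : 32 * m * (2 * E) ≤ 32 * m * X := by nlinarith
    exact le_of_mul_le_mul_left this (by positivity)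
  have h10 : X ^ 2 ≤ 2 * E * TA := by nlinarith
  have h11 : E * B ^ 2 ≤ 2048 * m ^ 2 * TA := by
    -- `(E B)^2 ≤ (32 m X)^2 = 1024 m^2 X^2 ≤ 2048 m^2 E TA`
    have h12 : (E * B) ^ 2 ≤ (32 * m * X) ^ 2 := pow_le_pow_left₀ (by positivity) h4 2
    have h13 : (32 * m * X) ^ 2 = 1024 * m ^ 2 * X ^ 2 := by ring
    rw [h13] at h12
    have h14 : 1024 * m ^ 2 * X ^ 2 ≤ 1024 * m ^ 2 * (2 * E * TA) :=
      mul_le_mul_of_nonneg_left h10 (by positivity)
    have h15 : E * (E * B ^ 2) ≤ E * (2048 * m ^ 2 * TA) := by nlinarith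
    exact le_of_mul_le_mul_left h15 hEpos
  by_contra hcon
  push Not at hcon
  have h12 : ∀ a ∈ A, 2048 * ((s : ℝ) + 1) ^ 2 * m ^ 2 * (TT R U a).card < B ^ 3 := by
    intro a ha
    rw [hA, mem_filter] at ha
    exact hcon a ha.1 ha.2
  have h13 : 2048 * m ^ 2 * TA = ∑ a ∈ A, 2048 * ((s : ℝ) + 1) ^ 2 * m ^ 2 * (TT R U a).card := by
    rw [hTA, ← mul_sum]; ring
  have h14 : B ^ 3 * U.card ≤ 2048 * m ^ 2 * TA := by
    refine le_trans ?_ h11
    have : B ^ 3 * U.card = B ^ 2 * (B * U.card) := by ring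
    rw [this]
    nlinarith [pow_pos hBpos 2]
  rcases A.eq_empty_or_nonempty with hAe | hAne
  · rw [h13, hAe, sum_empty] at h14
    have : 0 < B ^ 3 * U.card := by positivity
    linarith
  · have h15 : 2048 * m ^ 2 * TA < ∑ a ∈ A, B ^ 3 := by
      rw [h13]
      exact sum_lt_sum_of_nonempty hAne h12
    rw [sum_const, nsmul_eq_mul] at h15
    have h16 : (A.card : ℝ) * B ^ 3 ≤ U.card * B ^ 3 := by
      apply mul_le_mul_of_nonneg_right _ (by positivity)
      exact_mod_cast card_le_card hAU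
    linarith

/-- The local lemma: if `S j` minus an independent set embeds into every large subset, then `S j`
embeds. -/
theorem loc {s : ℕ} (hR : FewCommon R s) {J : ℕ} {S : ℕ → Finset W} {b : ℕ → ℕ}
    (hc : Chain F J S b) {q : ℕ} (hq : ∀ j < J, b j ≤ q) {U : Finset V} (hU : U.Nonempty) (j : ℕ)
    (hj : j ≤ J) (hq1 : 1 ≤ q) {B τ : ℝ} (hB : B * U.card ≤ e2 R U)
    (hBh : 64 * ((s : ℝ) + 4) * (S j).card ≤ B)
    (hτ : 2048 * ((s : ℝ) + 1) ^ 2 * (min q (S j).card : ℕ) ^ 2 * τ ≤ B ^ 3) (X : Finset W)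
    (hX : ∀ w ∈ X, ∀ w' ∈ X, ¬ F.Adj w w')
    (hrec : ∀ Q ⊆ U, τ ≤ Q.card → BlueEmb R F (S j \ X) Q) : BlueEmb R F (S j) U := by
  by_contra hn
  have hSpos : 1 ≤ (S j).card := by
    by_contra h0
    have : S j = ∅ := by
      rw [← card_eq_zero]; omega
    rw [this] at hn
    exact hn (blueEmb_empty hU)
  have hm : 1 ≤ min q (S j).card := le_min hq1 hSpos
  obtain ⟨a, ha, ha1, ha2⟩ := exists_tip hR hc hq hU j hj hm hB hBh hn
  have hmpos : (0 : ℝ) < 2048 * ((s : ℝ) + 1) ^ 2 * (min q (S j).card : ℕ) ^ 2 := by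
    have : (0 : ℝ) < ((min q (S j).card : ℕ) : ℝ) := by exact_mod_cast hm
    positivity
  have hτ2 : τ ≤ (TT R U a).card := le_of_mul_le_mul_left (hτ.trans ha2) hmpos
  obtain ⟨f, f1, f2, f3⟩ := hrec (TT R U a) (filter_subset _ _) hτ2
  apply hn
  set S' := S j \ X with hS'
  set T' := S j ∩ X with hT'
  -- the available part of the neighbourhood of `a`
  set Z := nb R U a \ (S'.image f ∪ S'.biUnion (fun w => U.filter
    (fun z => R.Adj a z ∧ R.Adj (f w) z))) with hZ
  have hZcard : T'.card ≤ Z.card := by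
    have h1 : (nb R U a).card ≤ Z.card + (S'.image f ∪ S'.biUnion (fun w => U.filter
        (fun z => R.Adj a z ∧ R.Adj (f w) z))).card := by
      have := le_card_sdiff (S'.image f ∪ S'.biUnion (fun w => U.filter
        (fun z => R.Adj a z ∧ R.Adj (f w) z))) (nb R U a)
      rw [← hZ] at this
      omega
    have h2 : (S'.biUnion (fun w => U.filter (fun z => R.Adj a z ∧ R.Adj (f w) z))).card ≤
        S'.card * (s + 1) := by
      apply card_biUnion_le_card_mul
      intro w hw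
      have h3 := (mem_filter.1 (f1 w hw)).2
      obtain ⟨h4, u, -, v, -, h5, h6, h7, h8, h9⟩ := h3
      exact hR U a (f w) u v h4.symm h5 h6 h7 h8 h9
    have h3 : (S'.image f).card ≤ S'.card := card_image_le
    have h4 := card_union_le (S'.image f) (S'.biUnion (fun w => U.filter
        (fun z => R.Adj a z ∧ R.Adj (f w) z)))
    have h5 : (s + 4) * (S j).card ≤ (nb R U a).card := by exact_mod_cast ha1
    have h6 : S'.card ≤ (S j).card := card_le_card sdiff_subset
    have h7 : T'.card ≤ (S j).card := card_le_card inter_subset_left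
    have h8 : S'.card * (s + 1) ≤ (S j).card * (s + 1) := Nat.mul_le_mul_right _ h6
    nlinarith
  have hmain := extend_into (R := R) (F := F) (S' := S') (T := T') (U := U) (Z := Z) (f := f)
    (fun w hw => (mem_filter.1 (f1 w hw)).1) f2 f3
    (sdiff_subset.trans (nb_subset R U a)) hZcard ?_ ?_ ?_ ?_
  · rwa [hS', hT', sdiff_union_inter] at hmain
  · intro w hw h
    rw [hZ, mem_sdiff, mem_union, not_or] at h
    exact h.2.1 (mem_image_of_mem f hw)
  · intro w hw z hz h
    rw [hZ, mem_sdiff, mem_union, not_or] at hz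
    apply hz.2.2
    rw [mem_biUnion]
    exact ⟨w, hw, mem_filter.2 ⟨(mem_nb.1 hz.1).1, (mem_nb.1 hz.1).2, h⟩⟩
  · rw [hS', hT']
    exact disjoint_sdiff_inter _ _
  · intro w hw w' hw'
    exact hX w (mem_inter.1 hw).2 w' (mem_inter.1 hw').2

end Pool.Agent.helper60.Rsl
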