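import Pool.Agent.helper60.Rsl.Local

/-! The graph `K_{2,s+2}` plus an edge, and the induction on the number of colours. -/

namespace Pool.Agent.helper60.Rsl

open Finset
open scoped Classical

/-- `K_{2,s+2}` plus one edge inside the side of size `s + 2`. -/
def Kp (s : ℕ) : SimpleGraph (Fin 2 ⊕ Fin (s + 2)) where
  Adj x y :=
    (x.isLeft ∧ y.isRight) ∨ (x.isRight ∧ y.isLeft) ∨
      (x = Sum.inr 0 ∧ y = Sum.inr 1) ∨ (x = Sum.inr 1 ∧ y = Sum.inr 0)
  symm := ⟨by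
    intro x y h
    rcases h with h | h | h | h
    · exact Or.inr (Or.inl ⟨h.2, h.1⟩)
    · exact Or.inl ⟨h.2, h.1⟩
    · exact Or.inr (Or.inr (Or.inr ⟨h.2, h.1⟩))
    · exact Or.inr (Or.inr (Or.inl ⟨h.2, h.1⟩))⟩
  loopless := ⟨by
    intro x h
    rcases h with h | h | h | h
    · rcases x with x | x
      · simp at h
      · simp at h
    · rcases x with x | x
      · simp at h
      · simp at h
    · rw [h.1] at h
      have := h.2
      simp at this
    · rw [h.1] at h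
      have := h.2
      simp at this⟩

variable {V W : Type*} {R : SimpleGraph V} {F : SimpleGraph W}

/-- A graph without `Kp s`: two vertices with two adjacent common neighbours have few common
neighbours. -/
theorem fewCommon_of_free {s : ℕ} (h : ¬ (Kp s).IsContained R) : FewCommon R s := by
  intro U x y u v hxy huv hxu hxv hyu hyv
  by_contra hlt
  push Not at hlt
  apply h
  set C := U.filter (fun z => R.Adj x z ∧ R.Adj y z) with hC
  have h1 : s ≤ (C \ {u, v}).card := by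
    have h2 := le_card_sdiff ({u, v} : Finset V) C
    have h3 : ({u, v} : Finset V).card ≤ 2 := card_le_two
    omega
  obtain ⟨D, hD, hDc⟩ := exists_subset_card_eq h1
  let g : Fin s → V := fun k => ((D.equivFinOfCardEq hDc).symm k : V)
  have hg : ∀ k, g k ∈ D := fun k => ((D.equivFinOfCardEq hDc).symm k).2
  have hginj : Function.Injective g := by
    intro k l hkl
    exact (D.equivFinOfCardEq hDc).symm.injective (Subtype.ext hkl)
  have hgC : ∀ k, R.Adj x (g k) ∧ R.Adj y (g k) ∧ g k ≠ u ∧ g k ≠ v := by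
    intro k
    have h4 := hD (hg k)
    rw [mem_sdiff, hC, mem_filter, mem_insert, mem_singleton, not_or] at h4
    exact ⟨h4.1.2.1, h4.1.2.2, h4.2.1, h4.2.2⟩
  let r : Fin (s + 2) → V := Fin.cons u (Fin.cons v g)
  have hr0 : r 0 = u := rfl
  have hr1 : r 1 = v := rfl
  have hrx : ∀ k, R.Adj x (r k) ∧ R.Adj y (r k) := by
    intro k
    refine Fin.cases ?_ (fun k => ?_) k
    · exact ⟨hxu, hyu⟩
    · refine Fin.cases ?_ (fun k => ?_) k
      · exact ⟨hxv, hyv⟩
      · exact ⟨(hgC k).1, (hgC k).2.1⟩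
  have hrinj : Function.Injective r := by
    show Function.Injective (Fin.cons u (Fin.cons v g) : Fin (s + 2) → V)
    rw [Fin.cons_injective_iff, Fin.cons_injective_iff]
    refine ⟨?_, ?_, hginj⟩
    · rintro ⟨k, hk⟩
      revert hk
      refine Fin.cases ?_ (fun k => ?_) k
      · intro hk
        exact huv.ne hk.symm
      · intro hk
        exact (hgC k).2.2.1 hk
    · rintro ⟨k, hk⟩
      exact (hgC k).2.2.2 hk
  let l : Fin 2 → V := ![x, y]
  have hlinj : Function.Injective l := by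
    intro i j hij
    fin_cases i <;> fin_cases j
    · rfl
    · exact absurd hij hxy
    · exact absurd hij hxy.symm
    · rfl
  have hlr : ∀ i k, R.Adj (l i) (r k) := by
    intro i k
    fin_cases i
    · exact (hrx k).1
    · exact (hrx k).2
  let f : Fin 2 ⊕ Fin (s + 2) → V := Sum.elim l r
  have hf : ∀ a b, (Kp s).Adj a b → R.Adj (f a) (f b) := by
    intro a b hab
    rcases hab with hab | hab | hab | hab
    · rcases a with a | a
      · rcases b with b | b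
        · simp at hab
        · exact hlr a b
      · simp at hab
    · rcases a with a | a
      · simp at hab
      · rcases b with b | b
        · exact (hlr b a).symm
        · simp at hab
    · rw [hab.1, hab.2]; exact huv
    · rw [hab.1, hab.2]; exact huv.symm
  refine ⟨⟨⟨f, fun {a b} hab => hf a b hab⟩, ?_⟩⟩
  show Function.Injective f
  exact hlinj.sumElim hrinj (fun i k => (hlr i k).ne)

/-- Bounds on a chain. -/
structure Bd (J : ℕ) (S : ℕ → Finset W) (b : ℕ → ℕ) (q : ℕ) (M : ℝ) : Prop where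
  sum_b : ∑ j ∈ range J, b j ≤ q
  card0 : ((S 0).card : ℝ) ≤ M
  sum_bS : ∑ j ∈ range J, (b j : ℝ) * (S j).card ≤ M

theorem Chain.sub_zero {J : ℕ} {S : ℕ → Finset W} {b : ℕ → ℕ} (hc : Chain F J S b) (j : ℕ) :
    S j ⊆ S 0 := by
  induction j with
  | zero => exact Subset.rfl
  | succ j ih => exact (hc.anti j).trans ih

theorem Chain.shift {J : ℕ} {S : ℕ → Finset W} {b : ℕ → ℕ} (hc : Chain F J S b) {j : ℕ}
    (hj : j ≤ J) (X : Finset W) :
    Chain F (J - j) (fun i => S (j + i) \ X) (fun i => b (j + i)) := by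
  refine ⟨?_, ?_, ?_, ?_⟩
  · intro i
    exact sdiff_subset_sdiff (hc.anti (j + i)) Subset.rfl
  · show S (j + (J - j)) \ X = ∅
    rw [Nat.add_sub_cancel' hj, hc.last, empty_sdiff]
  · intro i hi T hT1 hT2
    have h1 : S (j + i + 1) ⊂ T ∪ S (j + i + 1) := by
      rw [ssubset_iff_of_subset subset_union_right]
      obtain ⟨w, hw1, hw2⟩ := exists_of_ssubset hT1
      refine ⟨w, mem_union_left _ hw1, fun h => hw2 (mem_sdiff.2 ⟨h, ?_⟩)⟩
      exact (mem_sdiff.1 (hT2 hw1)).2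
    have h2 : T ∪ S (j + i + 1) ⊆ S (j + i) :=
      union_subset (hT2.trans sdiff_subset) (hc.anti (j + i))
    obtain ⟨w, hw1, hw2, hw3⟩ := hc.bound (j + i) (by omega) (T ∪ S (j + i + 1)) h1 h2
    have hwT : w ∈ T := by
      rcases mem_union.1 hw1 with h | h
      · exact h
      · exact absurd h hw2
    refine ⟨w, hwT, ?_, ?_⟩
    · intro h
      exact hw2 (mem_sdiff.1 h).1
    · refine le_trans ?_ hw3
      exact card_le_card (filter_subset_filter _ subset_union_left)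
  · intro i hi
    exact hc.one_le (j + i) (by omega)

theorem Bd.shift {J : ℕ} {S : ℕ → Finset W} {b : ℕ → ℕ} {q : ℕ} {M : ℝ} (hc : Chain F J S b)
    (hb : Bd J S b q M) {j : ℕ} (hj : j ≤ J) (X : Finset W) :
    Bd (J - j) (fun i => S (j + i) \ X) (fun i => b (j + i)) q M := by
  refine ⟨?_, ?_, ?_⟩
  · refine le_trans ?_ hb.sum_b
    have h1 := sum_range_add_sum_Ico b hj
    rw [sum_Ico_eq_sum_range] at h1
    omega
  · refine le_trans ?_ hb.card0
    exact_mod_cast card_le_card (sdiff_subset.trans (hc.sub_zero (j + 0)))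
  · refine le_trans ?_ hb.sum_bS
    have h1 := sum_range_add_sum_Ico (fun i => (b i : ℝ) * (S i).card) hj
    rw [sum_Ico_eq_sum_range] at h1
    have h2 : 0 ≤ ∑ i ∈ range j, (b i : ℝ) * (S i).card :=
      sum_nonneg fun i _ => by positivity
    have h3 : ∑ i ∈ range (J - j), (b (j + i) : ℝ) * (S (j + i) \ X).card ≤
        ∑ i ∈ range (J - j), (b (j + i) : ℝ) * (S (j + i)).card := by
      apply sum_le_sum
      intro i _
      apply mul_le_mul_of_nonneg_left _ (Nat.cast_nonneg _)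
      exact_mod_cast card_le_card sdiff_subset
    linarith

theorem indep_emb [Nonempty V] {T : Finset W} {Q : Finset V} (h : T.card ≤ Q.card)
    (hT : ∀ w ∈ T, ∀ w' ∈ T, ¬ F.Adj w w') : BlueEmb R F T Q := by
  have := extend_into (R := R) (F := F) (S' := ∅) (T := T) (U := Q) (Z := Q)
    (f := fun _ => Classical.arbitrary V) (by simp) (by simp) (by simp) Subset.rfl h (by simp)
    (by simp) (disjoint_empty_left _) hT
  rwa [empty_union] at this

/-- One step: from embeddings of `S j` minus an independent set in all sets of size `τ`. -/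
theorem step {s : ℕ} (hR : FewCommon R s) {J : ℕ} {S : ℕ → Finset W} {b : ℕ → ℕ}
    (hc : Chain F J S b) {q : ℕ} {M : ℝ} (hb : Bd J S b q M) (hq : 1 ≤ q) (hM : 0 < M)
    {τ : ℝ} (hτ : 0 ≤ τ) (X : ℕ → Finset W) (hX : ∀ j, ∀ w ∈ X j, ∀ w' ∈ X j, ¬ F.Adj w w')
    {U : Finset V}
    (hrec : ∀ j < J, ∀ Q ⊆ U, τ ≤ Q.card → BlueEmb R F (S j \ X j) Q)
    (hU : 16 * (64 * ((s : ℝ) + 4) * M + 13 * ((s : ℝ) + 1) * (q : ℝ) ^ (5 / 3 : ℝ) *
      τ ^ (1 / 3 : ℝ)) ≤ U.card) : BlueEmb R F (S 0) U := by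
  have hqle : ∀ j < J, b j ≤ q := fun j hj =>
    (single_le_sum (f := b) (fun i _ => Nat.zero_le _) (mem_range.2 hj)).trans hb.sum_b
  have hs0 : (0 : ℝ) ≤ s := Nat.cast_nonneg _
  have hq0 : (0 : ℝ) < q := by exact_mod_cast hq
  set β : ℝ := 13 * ((s : ℝ) + 1) * (q : ℝ) ^ (2 / 3 : ℝ) * τ ^ (1 / 3 : ℝ) with hβ
  have hβ0 : 0 ≤ β := by positivity
  have hβq : β * q = 13 * ((s : ℝ) + 1) * (q : ℝ) ^ (5 / 3 : ℝ) * τ ^ (1 / 3 : ℝ) := by
    have h1 : (q : ℝ) ^ (5 / 3 : ℝ) = (q : ℝ) ^ (2 / 3 : ℝ) * q := by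
      rw [show (5 / 3 : ℝ) = 2 / 3 + 1 by norm_num, Real.rpow_add hq0, Real.rpow_one]
    rw [hβ, h1]; ring
  have hβ3 : 2048 * ((s : ℝ) + 1) ^ 2 * (q : ℝ) ^ 2 * τ ≤ β ^ 3 := by
    have h1 : ((q : ℝ) ^ (2 / 3 : ℝ)) ^ 3 = (q : ℝ) ^ 2 := by
      rw [← Real.rpow_natCast, ← Real.rpow_mul hq0.le, ← Real.rpow_natCast]
      norm_num
    have h2 : (τ ^ (1 / 3 : ℝ)) ^ 3 = τ := by
      rw [← Real.rpow_natCast, ← Real.rpow_mul hτ]
      norm_num
    have h3 : β ^ 3 = 2197 * ((s : ℝ) + 1) ^ 3 * (q : ℝ) ^ 2 * τ := by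
      rw [hβ, mul_pow, mul_pow, h1, h2]; ring
    rw [h3]
    have h4 : 2048 * ((s : ℝ) + 1) ^ 2 ≤ 2197 * ((s : ℝ) + 1) ^ 3 := by
      have : ((s : ℝ) + 1) ^ 2 ≤ ((s : ℝ) + 1) ^ 3 := pow_le_pow_right₀ (by linarith) (by norm_num)
      nlinarith [pow_pos (show (0 : ℝ) < (s : ℝ) + 1 by linarith) 3]
    have h5 : 0 ≤ (q : ℝ) ^ 2 * τ := by positivity
    calc 2048 * ((s : ℝ) + 1) ^ 2 * (q : ℝ) ^ 2 * τ
        = 2048 * ((s : ℝ) + 1) ^ 2 * ((q : ℝ) ^ 2 * τ) := by ring
      _ ≤ 2197 * ((s : ℝ) + 1) ^ 3 * ((q : ℝ) ^ 2 * τ) := mul_le_mul_of_nonneg_right h4 h5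
      _ = _ := by ring
  have hUpos : (0 : ℝ) < U.card := by
    refine lt_of_lt_of_le ?_ hU
    positivity
  refine scale hc (B := fun j => 64 * ((s : ℝ) + 4) * (S j).card + β) (fun j => by positivity)
    hUpos ?_ ?_ ?_ le_rfl
  · intro j hj U' hU' hne hB
    refine loc hR hc hqle hne j hj.le hq hB (by linarith) (τ := τ) ?_ (X j) (hX j) ?_
    · refine le_trans ?_ (le_trans hβ3 ?_)
      · have h1 : ((min q (S j).card : ℕ) : ℝ) ≤ q := by exact_mod_cast min_le_left _ _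
        gcongr
      · apply pow_le_pow_left₀ hβ0
        have : 0 ≤ 64 * ((s : ℝ) + 4) * (S j).card := by positivity
        linarith
    · intro Q hQ hQc
      exact hrec j hj Q (hQ.trans hU') hQc
  · have h1 := hb.card0
    have h2 : 0 ≤ 13 * ((s : ℝ) + 1) * (q : ℝ) ^ (5 / 3 : ℝ) * τ ^ (1 / 3 : ℝ) := by positivity
    have h3 : M ≤ 64 * ((s : ℝ) + 4) * M := by nlinarith
    linarith
  · have h1 : ∑ j ∈ range J, (b j : ℝ) * (64 * ((s : ℝ) + 4) * (S j).card + β) =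
        64 * ((s : ℝ) + 4) * (∑ j ∈ range J, (b j : ℝ) * (S j).card) +
          (∑ j ∈ range J, (b j : ℝ)) * β := by
      rw [mul_sum, sum_mul, ← sum_add_distrib]
      exact sum_congr rfl fun j _ => by ring
    rw [h1]
    have h2 : 64 * ((s : ℝ) + 4) * (∑ j ∈ range J, (b j : ℝ) * (S j).card) ≤
        64 * ((s : ℝ) + 4) * M := mul_le_mul_of_nonneg_left hb.sum_bS (by positivity)
    have h3 : (∑ j ∈ range J, (b j : ℝ)) * β ≤ q * β := by
      apply mul_le_mul_of_nonneg_right _ hβ0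
      exact_mod_cast hb.sum_b
    have h4 : (q : ℝ) * β = 13 * ((s : ℝ) + 1) * (q : ℝ) ^ (5 / 3 : ℝ) * τ ^ (1 / 3 : ℝ) := by
      rw [mul_comm, hβq]
    linarith

/-- The bipartite case. -/
theorem two_colors {s : ℕ} (hR : FewCommon R s) {J : ℕ} {S : ℕ → Finset W} {b : ℕ → ℕ}
    (hc : Chain F J S b) {q : ℕ} {M : ℝ} (hb : Bd J S b q M) (hq : 1 ≤ q) (hM : 0 < M)
    (c : W → ℕ) (hcol : ∀ w w', F.Adj w w' → c w ≠ c w') (hc2 : ∀ w ∈ S 0, c w < 2)
    {U : Finset V} (hU : 1024 * ((s : ℝ) + 4) * M ≤ U.card) : BlueEmb R F (S 0) U := by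
  have hqle : ∀ j < J, b j ≤ q := fun j hj =>
    (single_le_sum (f := b) (fun i _ => Nat.zero_le _) (mem_range.2 hj)).trans hb.sum_b
  have hs0 : (0 : ℝ) ≤ s := Nat.cast_nonneg _
  have hUpos : (0 : ℝ) < U.card := by
    refine lt_of_lt_of_le ?_ hU
    positivity
  have hMA : M ≤ 64 * ((s : ℝ) + 4) * M := by nlinarith
  refine scale hc (B := fun j => 64 * ((s : ℝ) + 4) * (S j).card) (fun j => by positivity)
    hUpos ?_ ?_ ?_ le_rfl
  · intro j hj U' hU' hne hB
    have : Nonempty V := ⟨hne.choose⟩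
    refine loc hR hc hqle hne j hj.le hq hB le_rfl (τ := (S j).card) ?_
      ((S j).filter (fun w => c w = 1)) ?_ ?_
    · have h1 : ((min q (S j).card : ℕ) : ℝ) ≤ (S j).card := by exact_mod_cast min_le_right _ _
      have h2 : 2048 * ((s : ℝ) + 1) ^ 2 ≤ (64 * ((s : ℝ) + 4)) ^ 3 := by
        have h3 : ((s : ℝ) + 1) ^ 2 ≤ ((s : ℝ) + 4) ^ 2 := by gcongr; norm_num
        have h4 : ((s : ℝ) + 4) ^ 2 ≤ ((s : ℝ) + 4) ^ 3 :=
          pow_le_pow_right₀ (by linarith) (by norm_num)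
        nlinarith [pow_pos (show (0 : ℝ) < (s : ℝ) + 4 by linarith) 3]
      calc 2048 * ((s : ℝ) + 1) ^ 2 * ((min q (S j).card : ℕ) : ℝ) ^ 2 * ((S j).card : ℝ)
          ≤ 2048 * ((s : ℝ) + 1) ^ 2 * ((S j).card : ℝ) ^ 2 * ((S j).card : ℝ) := by gcongr
        _ = 2048 * ((s : ℝ) + 1) ^ 2 * ((S j).card : ℝ) ^ 3 := by ring
        _ ≤ (64 * ((s : ℝ) + 4)) ^ 3 * ((S j).card : ℝ) ^ 3 := by gcongr
        _ = _ := by ring
    · intro w hw w' hw' ha
      exact hcol w w' ha ((mem_filter.1 hw).2.trans (mem_filter.1 hw').2.symm)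
    · intro Q hQ hQc
      apply indep_emb
      · have h1 : (S j).card ≤ Q.card := by exact_mod_cast hQc
        exact (card_le_card sdiff_subset).trans h1
      · intro w hw w' hw' ha
        rw [mem_sdiff, mem_filter, not_and] at hw hw'
        have h1 := hw.2 hw.1
        have h2 := hw'.2 hw'.1
        have h3 := hc2 w (hc.sub_zero j hw.1)
        have h4 := hc2 w' (hc.sub_zero j hw'.1)
        exact hcol w w' ha (by omega)
  · have h1 := hb.card0
    linarith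
  · have h1 : ∑ j ∈ range J, (b j : ℝ) * (64 * ((s : ℝ) + 4) * (S j).card) =
        64 * ((s : ℝ) + 4) * (∑ j ∈ range J, (b j : ℝ) * (S j).card) := by
      rw [mul_sum]
      exact sum_congr rfl fun j _ => by ring
    rw [h1]
    have h2 : 64 * ((s : ℝ) + 4) * (∑ j ∈ range J, (b j : ℝ) * (S j).card) ≤
        64 * ((s : ℝ) + 4) * M := mul_le_mul_of_nonneg_left hb.sum_bS (by positivity)
    linarith

/-- The size needed for `i + 2` colours. -/
noncomputable def Gg (q : ℕ) (M : ℝ) : ℕ → ℝ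
  | 0 => M
  | i + 1 => M + (q : ℝ) ^ (5 / 3 : ℝ) * (Gg q M i) ^ (1 / 3 : ℝ)

/-- The constants. -/
noncomputable def Cc (s : ℕ) : ℕ → ℝ
  | 0 => 1024 * ((s : ℝ) + 4)
  | i + 1 => 1024 * ((s : ℝ) + 4) + 208 * ((s : ℝ) + 1) * Cc s i

theorem one_le_Cc (s i : ℕ) : 1 ≤ Cc s i := by
  have hs0 : (0 : ℝ) ≤ s := Nat.cast_nonneg _
  induction i with
  | zero => rw [Cc]; linarith
  | succ i ih =>
    rw [Cc]
    have : 0 ≤ 208 * ((s : ℝ) + 1) * Cc s i := by positivity
    linarith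

theorem Gg_pos (q : ℕ) {M : ℝ} (hM : 0 < M) (i : ℕ) : M ≤ Gg q M i := by
  induction i with
  | zero => rw [Gg]
  | succ i ih =>
    rw [Gg]
    have h0 : 0 ≤ Gg q M i := hM.le.trans ih
    have : 0 ≤ (q : ℝ) ^ (5 / 3 : ℝ) * (Gg q M i) ^ (1 / 3 : ℝ) := by positivity
    linarith

/-- The case of `i + 2` colours. -/
theorem many_colors {s : ℕ} (hR : FewCommon R s) {q : ℕ} {M : ℝ} (hq : 1 ≤ q) (hM : 0 < M)
    (c : W → ℕ) (hcol : ∀ w w', F.Adj w w' → c w ≠ c w') (i : ℕ) :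
    ∀ {J : ℕ} {S : ℕ → Finset W} {b : ℕ → ℕ}, Chain F J S b → Bd J S b q M →
    (∀ w ∈ S 0, c w < i + 2) → ∀ U : Finset V, Cc s i * Gg q M i ≤ U.card →
      BlueEmb R F (S 0) U := by
  have hs0 : (0 : ℝ) ≤ s := Nat.cast_nonneg _
  induction i with
  | zero =>
    intro J S b hc hb hc2 U hU
    exact two_colors hR hc hb hq hM c hcol hc2 (by rw [Cc, Gg] at hU; exact hU)
  | succ i ih =>
    intro J S b hc hb hc2 U hU
    have hGM := Gg_pos q hM i
    have hG0 : 0 ≤ Gg q M i := hM.le.trans hGM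
    have hC1 := one_le_Cc s i
    refine step hR hc hb hq hM (τ := Cc s i * Gg q M i) (by positivity)
      (fun j => (S j).filter (fun w => c w = i + 2)) ?_ ?_ ?_
    · intro j w hw w' hw' ha
      exact hcol w w' ha ((mem_filter.1 hw).2.trans (mem_filter.1 hw').2.symm)
    · intro j hj Q hQ hQc
      have := ih (hc.shift hj.le ((S j).filter (fun w => c w = i + 2)))
        (hb.shift hc hj.le ((S j).filter (fun w => c w = i + 2))) ?_ Q hQc
      · exact this
      · intro w hw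
        simp only [Nat.add_zero, mem_sdiff, mem_filter, not_and] at hw
        have h1 := hw.2 hw.1
        have h2 := hc2 w (hc.sub_zero j hw.1)
        omega
    · refine le_trans ?_ hU
      have h1 : (Cc s i * Gg q M i) ^ (1 / 3 : ℝ) ≤ Cc s i * (Gg q M i) ^ (1 / 3 : ℝ) := by
        rw [Real.mul_rpow (by linarith) hG0]
        apply mul_le_mul_of_nonneg_right _ (by positivity)
        calc (Cc s i) ^ (1 / 3 : ℝ) ≤ (Cc s i) ^ (1 : ℝ) :=
              Real.rpow_le_rpow_of_exponent_le hC1 (by norm_num)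
          _ = Cc s i := Real.rpow_one _
      rw [Cc, Gg]
      set x := (q : ℝ) ^ (5 / 3 : ℝ) with hx
      set y := (Gg q M i) ^ (1 / 3 : ℝ) with hy
      have hx0 : 0 ≤ x := by positivity
      have hy0 : 0 ≤ y := by positivity
      have h2 : 13 * ((s : ℝ) + 1) * x * (Cc s i * Gg q M i) ^ (1 / 3 : ℝ) ≤
          13 * ((s : ℝ) + 1) * x * (Cc s i * y) := mul_le_mul_of_nonneg_left h1 (by positivity)
      have h3 : 0 ≤ 1024 * ((s : ℝ) + 4) * (x * y) := by positivity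
      have h4 : 0 ≤ 208 * ((s : ℝ) + 1) * Cc s i * M := by positivity
      nlinarith

/-- The case of an arbitrary graph. -/
theorem general {s : ℕ} (hR : FewCommon R s) {q : ℕ} {M : ℝ} (hq : 1 ≤ q) (hM : 0 < M)
    {J : ℕ} {S : ℕ → Finset W} {b : ℕ → ℕ} (hc : Chain F J S b) (hb : Bd J S b q M)
    {U : Finset V} (hU1 : 2048 * ((s : ℝ) + 4) * M ≤ U.card)
    (hU2 : 12100 * ((s : ℝ) + 1) ^ 2 * (q : ℝ) ^ (5 / 2 : ℝ) ≤ U.card) : BlueEmb R F (S 0) U := by
  have hs0 : (0 : ℝ) ≤ s := Nat.cast_nonneg _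
  have hq0 : (0 : ℝ) < q := by exact_mod_cast hq
  set N : ℝ := (U.card : ℝ) with hN
  have hNpos : 0 < N := by
    refine lt_of_lt_of_le ?_ hU1
    positivity
  refine step hR hc hb hq hM (τ := 2 * N) (by positivity) (fun _ => ∅) (by simp) ?_ ?_
  · intro j _ Q hQ hQc
    exfalso
    have h1 : (Q.card : ℝ) ≤ N := by
      rw [hN]; exact_mod_cast card_le_card hQ
    linarith
  · -- `n = N^(1/3)`, `p = q^(1/6)`
    set n : ℝ := (2 * N) ^ (1 / 3 : ℝ) with hn
    set p : ℝ := (q : ℝ) ^ (1 / 6 : ℝ) with hp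
    have hp0 : 0 < p := by positivity
    have hn0 : 0 < n := by positivity
    have hn3 : n ^ 3 = 2 * N := by
      rw [hn, ← Real.rpow_natCast, ← Real.rpow_mul (by positivity)]
      norm_num
    have hp15 : (q : ℝ) ^ (5 / 2 : ℝ) = p ^ 15 := by
      rw [hp, ← Real.rpow_natCast, ← Real.rpow_mul hq0.le]
      norm_num
    have hp10 : (q : ℝ) ^ (5 / 3 : ℝ) = p ^ 10 := by
      rw [hp, ← Real.rpow_natCast, ← Real.rpow_mul hq0.le]
      norm_num
    rw [hp15] at hU2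
    rw [hp10]
    -- `N ≥ K p^15`, `n^3 = 2 N`, so `n^6 = 4 N^2 ≥ 4 K^2 p^30 ≥ (832 (s+1) p^10)^3`
    have h1 : 832 * ((s : ℝ) + 1) * p ^ 10 ≤ n ^ 2 := by
      have h2 : (832 * ((s : ℝ) + 1) * p ^ 10) ^ 3 ≤ (n ^ 2) ^ 3 := by
        have h3 : (n ^ 2) ^ 3 = 4 * N ^ 2 := by
          have : (n ^ 2) ^ 3 = (n ^ 3) ^ 2 := by ring
          rw [this, hn3]; ring
        rw [h3]
        have h4 : (12100 * ((s : ℝ) + 1) ^ 2 * p ^ 15) ^ 2 ≤ N ^ 2 :=
          pow_le_pow_left₀ (by positivity) hU2 2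
        have h5 : (832 * ((s : ℝ) + 1) * p ^ 10) ^ 3 = 575930368 * ((s : ℝ) + 1) ^ 3 * p ^ 30 := by
          ring
        have h6 : (12100 * ((s : ℝ) + 1) ^ 2 * p ^ 15) ^ 2 =
            146410000 * ((s : ℝ) + 1) ^ 4 * p ^ 30 := by ring
        rw [h5]
        rw [h6] at h4
        have h7 : ((s : ℝ) + 1) ^ 3 ≤ ((s : ℝ) + 1) ^ 4 :=
          pow_le_pow_right₀ (by linarith) (by norm_num)
        have h8 : ((s : ℝ) + 1) ^ 3 * p ^ 30 ≤ ((s : ℝ) + 1) ^ 4 * p ^ 30 :=
          mul_le_mul_of_nonneg_right h7 (by positivity)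
        have h9 : 0 ≤ ((s : ℝ) + 1) ^ 4 * p ^ 30 := by positivity
        nlinarith
      exact le_of_pow_le_pow_left₀ (by norm_num) (by positivity) h2
    have h2 : 832 * ((s : ℝ) + 1) * p ^ 10 * n ≤ 2 * N := by
      rw [← hn3]
      have : n ^ 3 = n ^ 2 * n := by ring
      rw [this]
      exact mul_le_mul_of_nonneg_right h1 hn0.le
    have h3 : 16 * (64 * ((s : ℝ) + 4) * M) ≤ N / 2 := by linarith
    have h4 : 16 * (13 * ((s : ℝ) + 1) * p ^ 10 * n) ≤ N / 2 := by linarith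
    linarith

end Pool.Agent.helper60.Rsl
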