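import Pool.Agent.helper60.Rsl.Final

/-! Graphs with few edges: the bound from the extremal number, and the extremal number of
`K_{3,3}`. -/

namespace Pool.Agent.helper60.Rsl

open Finset
open scoped Classical

variable {V W : Type*} {R : SimpleGraph V} {F : SimpleGraph W}

theorem e2_eq (R : SimpleGraph V) (U : Finset V) :
    e2 R U = 2 * (R.comap (Subtype.val : {x // x ∈ U} → V)).edgeFinset.card := by
  rw [← SimpleGraph.sum_degrees_eq_twice_card_edges, e2]
  rw [← sum_coe_sort U]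
  refine sum_congr rfl fun x _ => ?_
  have h := deg_eq (R.comap (Subtype.val : {x // x ∈ U} → V)) x
  rw [card_filter] at h
  rw [nb, card_filter, ← sum_coe_sort U]
  exact h

/-- The bound from the extremal number. -/
theorem arrows_turan {A : Type*} {G : SimpleGraph A} {α c : ℝ} (hα : 0 < α) (hα1 : α ≤ 1)
    (hc : 0 ≤ c) (hG : ∀ n : ℕ, (SimpleGraph.extremalNumber n G : ℝ) ≤ c * (n : ℝ) ^ (2 - α))
    [Fintype W] (F : SimpleGraph W) (hm : 1 ≤ F.edgeFinset.card) (hF : ∀ w, 1 ≤ F.degree w)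
    {D : ℕ} (hD : 1 ≤ D) (hFD : Degen F D) (N : ℕ) (hN1 : 64 * (F.edgeFinset.card : ℝ) ≤ N)
    (hN2 : (64 * (2 * c + 1)) ^ (1 / α) * (D : ℝ) ^ (1 / α) ≤ N) : Arrows N G F := by
  intro R
  by_cases hGR : G.IsContained R
  · exact Or.inl hGR
  right
  obtain ⟨J, S, b, hch, hb, hS0⟩ := exists_chain F hD hFD hF
  have hm1 : (1 : ℝ) ≤ F.edgeFinset.card := by exact_mod_cast hm
  have hD1 : (1 : ℝ) ≤ D := by exact_mod_cast hD
  have hNpos : (0 : ℝ) < N := by linarith
  have hmain : BlueEmb R F (S 0) (univ : Finset (Fin N)) := by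
    refine scale hch (B := fun _ => (2 * c + 1) * (N : ℝ) ^ (1 - α)) (fun _ => by positivity)
      hNpos ?_ ?_ ?_ ?_
    · intro j hj U' _ hne hB
      exfalso
      have hfree : G.Free (R.comap (Subtype.val : {x // x ∈ U'} → Fin N)) := by
        intro h
        exact hGR (h.trans ⟨(SimpleGraph.Embedding.comap ⟨_, Subtype.val_injective⟩ R).toCopy⟩)
      have h1 := SimpleGraph.card_edgeFinset_le_extremalNumber hfree
      rw [Fintype.card_coe] at h1
      have h2 := hG U'.card
      have h3 : (e2 R U' : ℝ) ≤ 2 * (c * (U'.card : ℝ) ^ (2 - α)) := by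
        rw [e2_eq, Nat.cast_mul, Nat.cast_ofNat]
        have h4 : ((R.comap (Subtype.val : {x // x ∈ U'} → Fin N)).edgeFinset.card : ℝ) ≤
          (SimpleGraph.extremalNumber U'.card G : ℝ) := by exact_mod_cast h1
        linarith
      have hu0 : (0 : ℝ) < U'.card := by exact_mod_cast card_pos.2 hne
      have huN : (U'.card : ℝ) ≤ N := by
        have := card_le_univ U'
        rw [Fintype.card_fin] at this
        exact_mod_cast this
      have h5 : (U'.card : ℝ) ^ (2 - α) = (U'.card : ℝ) ^ (1 - α) * U'.card := by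
        rw [show 2 - α = (1 - α) + 1 by ring, Real.rpow_add hu0, Real.rpow_one]
      have h6 : (U'.card : ℝ) ^ (1 - α) ≤ (N : ℝ) ^ (1 - α) :=
        Real.rpow_le_rpow hu0.le huN (by linarith)
      have hN0 : 0 < (N : ℝ) ^ (1 - α) := by positivity
      rw [h5] at h3
      have h7 : 2 * (c * ((U'.card : ℝ) ^ (1 - α) * U'.card)) ≤
          2 * c * (N : ℝ) ^ (1 - α) * U'.card := by
        have : c * (U'.card : ℝ) ^ (1 - α) * U'.card ≤ c * (N : ℝ) ^ (1 - α) * U'.card := by
          apply mul_le_mul_of_nonneg_right _ hu0.le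
          exact mul_le_mul_of_nonneg_left h6 hc
        linarith
      have h8 : (2 * c + 1) * (N : ℝ) ^ (1 - α) * U'.card ≤ 2 * c * (N : ℝ) ^ (1 - α) * U'.card := by
        linarith
      have h9 : 0 < (N : ℝ) ^ (1 - α) * U'.card := by positivity
      linarith
    · have := hb.card0
      linarith
    · rw [← sum_mul]
      have h1 : ∑ j ∈ range J, (b j : ℝ) ≤ 4 * D := by exact_mod_cast hb.sum_b
      have h2 : (∑ j ∈ range J, (b j : ℝ)) * ((2 * c + 1) * (N : ℝ) ^ (1 - α)) ≤
          4 * D * ((2 * c + 1) * (N : ℝ) ^ (1 - α)) :=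
        mul_le_mul_of_nonneg_right h1 (by positivity)
      -- `64 (2c+1) D ≤ N^α`
      have h3 : 64 * (2 * c + 1) * D ≤ (N : ℝ) ^ α := by
        have h4 : ((64 * (2 * c + 1)) ^ (1 / α) * (D : ℝ) ^ (1 / α)) ^ α ≤ (N : ℝ) ^ α :=
          Real.rpow_le_rpow (by positivity) hN2 hα.le
        rw [← Real.mul_rpow (by positivity) (by positivity), ← Real.rpow_mul (by positivity),
          one_div_mul_cancel hα.ne', Real.rpow_one] at h4
        exact h4
      have h5 : (N : ℝ) = (N : ℝ) ^ α * (N : ℝ) ^ (1 - α) := by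
        rw [← Real.rpow_add hNpos]; simp
      have h6 : 64 * (2 * c + 1) * D * (N : ℝ) ^ (1 - α) ≤ N := by
        calc _ ≤ (N : ℝ) ^ α * (N : ℝ) ^ (1 - α) := mul_le_mul_of_nonneg_right h3 (by positivity)
          _ = N := h5.symm
      linarith
    · rw [card_univ, Fintype.card_fin]
  rw [hS0] at hmain
  exact contained_of_blueEmb hmain

/-- Three vertices of a `K_{3,3}`-free graph have at most two common neighbours. -/
theorem common_three [Fintype V] (h : ¬ (completeBipartiteGraph (Fin 3) (Fin 3)).IsContained R)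
    (e : Fin 3 ↪ V) : (univ.filter (fun v => ∀ i, R.Adj v (e i))).card ≤ 2 := by
  by_contra hlt
  push Not at hlt
  apply h
  obtain ⟨D, hD, hDc⟩ := exists_subset_card_eq hlt
  let g : Fin 3 → V := fun k => ((D.equivFinOfCardEq hDc).symm k : V)
  have hg : ∀ k, g k ∈ D := fun k => ((D.equivFinOfCardEq hDc).symm k).2
  have hginj : Function.Injective g := by
    intro k l hkl
    exact (D.equivFinOfCardEq hDc).symm.injective (Subtype.ext hkl)
  have hadj : ∀ k i, R.Adj (g k) (e i) := fun k i => (mem_filter.1 (hD (hg k))).2 i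
  refine ⟨⟨⟨Sum.elim g e, fun {a b} hab => ?_⟩, ?_⟩⟩
  · rcases a with a | a <;> rcases b with b | b
    · simp at hab
    · exact hadj a b
    · exact (hadj b a).symm
    · simp at hab
  · show Function.Injective (Sum.elim g e)
    exact hginj.sumElim e.injective (fun i k => (hadj i k).ne)

/-- The number of triples of neighbours. -/
theorem triples [Fintype V] (R : SimpleGraph V) (v : V) :
    (univ.filter (fun e : Fin 3 ↪ V => ∀ i, R.Adj v (e i))).card =
      (R.degree v).descFactorial 3 := by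
  have h1 : (R.degree v).descFactorial 3 = Fintype.card (Fin 3 ↪ {x // x ∈ R.neighborFinset v}) := by
    rw [Fintype.card_embedding_eq, Fintype.card_fin, Fintype.card_coe,
      SimpleGraph.card_neighborFinset_eq_degree]
  rw [h1, ← Fintype.card_subtype]
  apply Fintype.card_congr
  refine ⟨fun e => ⟨fun i => ⟨e.1 i, by rw [SimpleGraph.mem_neighborFinset]; exact e.2 i⟩,
    fun i j hij => e.1.injective (by simpa using hij)⟩,
    fun e => ⟨⟨fun i => (e i).1, fun i j hij => e.injective (Subtype.ext hij)⟩, fun i => by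
      have := (e i).2
      rw [SimpleGraph.mem_neighborFinset] at this
      exact this⟩, ?_, ?_⟩
  · intro e; rfl
  · intro e; rfl

theorem kst33_aux {n : ℕ} (hn : 1 ≤ n) (R : SimpleGraph (Fin n))
    (hR : ¬ (completeBipartiteGraph (Fin 3) (Fin 3)).IsContained R) :
    (R.edgeFinset.card : ℝ) ≤ 2 * (n : ℝ) ^ (2 - 1 / 3 : ℝ) := by
  have hn1 : (1 : ℝ) ≤ n := by exact_mod_cast hn
  have hn0 : (0 : ℝ) < n := by linarith
  -- the sum over the vertices of `(d - 2)^3`
  have h1 : ∑ v : Fin n, (R.degree v - 2) ^ 3 ≤ 2 * n ^ 3 := by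
    calc ∑ v : Fin n, (R.degree v - 2) ^ 3 ≤ ∑ v : Fin n, (R.degree v).descFactorial 3 := by
          apply sum_le_sum
          intro v _
          refine le_trans ?_ (Nat.pow_sub_le_descFactorial _ 3)
          exact Nat.pow_le_pow_left (by omega) 3
      _ = ∑ v : Fin n, (univ.filter (fun e : Fin 3 ↪ Fin n => ∀ i, R.Adj v (e i))).card := by
          refine sum_congr rfl fun v _ => ?_
          rw [triples]
      _ = ∑ e : Fin 3 ↪ Fin n, (univ.filter (fun v => ∀ i, R.Adj v (e i))).card := by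
          simp_rw [card_filter]
          rw [sum_comm]
      _ ≤ ∑ e : Fin 3 ↪ Fin n, 2 := sum_le_sum fun e _ => common_three hR e
      _ = Fintype.card (Fin 3 ↪ Fin n) * 2 := by
          rw [sum_const, smul_eq_mul, card_univ]
      _ ≤ 2 * n ^ 3 := by
          rw [Fintype.card_embedding_eq, Fintype.card_fin, Fintype.card_fin, mul_comm]
          exact Nat.mul_le_mul_left _ (Nat.descFactorial_le_pow n 3)
  set T : ℝ := ∑ v : Fin n, ((R.degree v - 2 : ℕ) : ℝ) with hT
  have hT0 : 0 ≤ T := sum_nonneg fun v _ => Nat.cast_nonneg _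
  have h2 : T ^ 3 / (n : ℝ) ^ 2 ≤ ∑ v : Fin n, ((R.degree v - 2 : ℕ) : ℝ) ^ 3 := by
    have h := pow_sum_div_card_le_sum_pow (s := (univ : Finset (Fin n)))
      (f := fun v => ((R.degree v - 2 : ℕ) : ℝ)) (fun v _ => Nat.cast_nonneg _) 2
    rw [card_univ, Fintype.card_fin] at h
    exact h
  have h3 : ∑ v : Fin n, ((R.degree v - 2 : ℕ) : ℝ) ^ 3 ≤ 2 * (n : ℝ) ^ 3 := by exact_mod_cast h1
  -- `T ^ 3 ≤ 2 n ^ 5`
  have h4 : T ^ 3 ≤ 2 * (n : ℝ) ^ 5 := by
    have h5 := h2.trans h3
    rw [div_le_iff₀ (by positivity)] at h5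
    calc T ^ 3 ≤ 2 * (n : ℝ) ^ 3 * (n : ℝ) ^ 2 := h5
      _ = _ := by ring
  have hp : ((n : ℝ) ^ (2 - 1 / 3 : ℝ)) ^ 3 = (n : ℝ) ^ 5 := by
    rw [← Real.rpow_natCast, ← Real.rpow_mul hn0.le]
    have : (2 - 1 / 3 : ℝ) * ((3 : ℕ) : ℝ) = ((5 : ℕ) : ℝ) := by norm_num
    rw [this, Real.rpow_natCast]
  set P := (n : ℝ) ^ (2 - 1 / 3 : ℝ) with hP
  have hP0 : 0 ≤ P := by positivity
  have hPn : (n : ℝ) ≤ P := by
    rw [hP]
    calc (n : ℝ) = (n : ℝ) ^ (1 : ℝ) := (Real.rpow_one _).symm
      _ ≤ _ := Real.rpow_le_rpow_of_exponent_le hn1 (by norm_num)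
  have hTP : T ≤ 2 * P := by
    have h5 : T ^ 3 ≤ (2 * P) ^ 3 := by
      rw [mul_pow, hp]
      have : 0 ≤ (n : ℝ) ^ 5 := by positivity
      linarith
    exact le_of_pow_le_pow_left₀ (by norm_num) (by positivity) h5
  have h6 : (2 : ℝ) * R.edgeFinset.card ≤ T + 2 * n := by
    have h7 : 2 * R.edgeFinset.card ≤ ∑ v : Fin n, (R.degree v - 2) + 2 * n := by
      rw [← SimpleGraph.sum_degrees_eq_twice_card_edges]
      calc ∑ v, R.degree v ≤ ∑ v : Fin n, ((R.degree v - 2) + 2) :=
            sum_le_sum fun v _ => by omega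
        _ = _ := by
            rw [sum_add_distrib, sum_const, card_univ, Fintype.card_fin, smul_eq_mul, mul_comm n]
    rw [hT]
    exact_mod_cast h7
  linarith

/-- The extremal number of `K_{3,3}` (Kővári, Sós, Turán). -/
theorem kst33 (n : ℕ) :
    (SimpleGraph.extremalNumber n (completeBipartiteGraph (Fin 3) (Fin 3)) : ℝ) ≤
      2 * (n : ℝ) ^ (2 - 1 / 3 : ℝ) := by
  have hn0 : (0 : ℝ) ≤ n := Nat.cast_nonneg _
  have h := (SimpleGraph.extremalNumber_le_iff_of_nonneg (V := Fin n)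
    (completeBipartiteGraph (Fin 3) (Fin 3)) (m := 2 * (n : ℝ) ^ (2 - 1 / 3 : ℝ))
    (by positivity)).2 ?_
  · rwa [Fintype.card_fin] at h
  intro R inst hR
  rcases Nat.eq_zero_or_pos n with h0 | h0
  · subst h0
    have : R.edgeFinset.card = 0 := by
      rw [card_eq_zero, SimpleGraph.edgeFinset_eq_empty]
      exact Subsingleton.elim _ _
    rw [this]
    simp only [Nat.cast_zero]
    positivity
  · have h1 := kst33_aux h0 R hR
    have h2 : (R.edgeFinset.card : ℝ) ≤ 2 * (n : ℝ) ^ (2 - 1 / 3 : ℝ) := by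
      refine le_trans (le_of_eq ?_) h1
      congr 2
      ext e
      simp only [SimpleGraph.mem_edgeFinset]
    exact h2

end Pool.Agent.helper60.Rsl
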